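namespace Pool.Agent.H110.Refl

noncomputable def bit (a i : Nat) : Nat := Nat.land (Nat.shiftRight a i) 1

/-- the set `c` together with the unvisited vertices adjacent to it -/
noncomputable def nbr (a g c : Nat) : Nat :=
  Nat.lor c (Nat.mod (Nat.shiftRight (Nat.land (Nat.sub (Nat.lor (Nat.land (Nat.shiftRight (Nat.mul c g) 20) a) g) (Nat.shiftRight g 20)) g) 84) 1048575)

noncomputable def connL (a g v : Nat) (f : Nat) : Nat → Nat → Bool :=
  Nat.rec (fun _ _ => true) (fun _ ih d c => Bool.rec (Bool.rec (ih (nbr a g d) d) false (Nat.beq d c)) true (Nat.beq d v)) f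

noncomputable def conn (a g v y : Nat) : Bool :=
  connL a g v 9 (Nat.lor (Nat.land (Nat.shiftRight a (Nat.add 64 (Nat.mul 21 y))) v) (Nat.shiftLeft 1 y)) 0

/-- every unvisited row has at least two bits -/
noncomputable def degE (a g : Nat) : Bool :=
  Nat.beq (Nat.land (Nat.sub (Nat.lor (Nat.land a (Nat.sub (Nat.lor a g) (Nat.shiftRight g 20))) g) (Nat.shiftRight g 20)) g) g

end Pool.Agent.H110.Refl
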