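import Mathlib
import Pool.Agent.H110.Refl.AlgA

set_option autoImplicit false

namespace Pool.Agent.H110.Refl.A2

/-- code of a set of unvisited vertices -/
def gs (T : Finset ℕ) : ℕ := ∑ y ∈ T, (2 ^ y + 2 ^ (84 + 21 * y))

/-- code of a set of unvisited vertices (compact) -/
def vs (T : Finset ℕ) : ℕ := ∑ y ∈ T, 2 ^ y

/-- fields of 21 bits -/
def F (m : ℕ) (d : ℕ → ℕ) : ℕ := ∑ y ∈ Finset.range m, d y * 2 ^ (21 * y)

theorem F_succ (m : ℕ) (d : ℕ → ℕ) : F (m + 1) d = 2 ^ (21 * m) * d m + F m d := by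
  unfold F
  rw [Finset.sum_range_succ]
  ring

theorem F_lt (m : ℕ) (d : ℕ → ℕ) (hd : ∀ y, d y < 2 ^ 21) : F m d < 2 ^ (21 * m) := by
  induction m with
  | zero => simp [F]
  | succ m ih =>
    rw [F_succ, show 21 * (m + 1) = 21 * m + 21 by ring, pow_add]
    have h1 : d m + 1 ≤ 2 ^ 21 := hd m
    calc 2 ^ (21 * m) * d m + F m d < 2 ^ (21 * m) * d m + 2 ^ (21 * m) := by omega
      _ = 2 ^ (21 * m) * (d m + 1) := by ring
      _ ≤ 2 ^ (21 * m) * 2 ^ 21 := Nat.mul_le_mul_left _ h1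

theorem F_testBit (m : ℕ) (d : ℕ → ℕ) (hd : ∀ y, d y < 2 ^ 21) (i : ℕ) :
    (F m d).testBit i = (decide (i / 21 < m) && (d (i / 21)).testBit (i % 21)) := by
  induction m with
  | zero => simp [F]
  | succ m ih =>
    rw [F_succ, Nat.testBit_two_pow_mul_add _ (F_lt m d hd), ih]
    by_cases h1 : i < 21 * m
    · have h2 : i / 21 < m := by omega
      have h3 : i / 21 < m + 1 := by omega
      rw [if_pos h1, decide_eq_true h2, decide_eq_true h3]
    · rw [if_neg h1]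
      by_cases h2 : i / 21 = m
      · have h3 : i - 21 * m = i % 21 := by omega
        have h4 : i / 21 < m + 1 := by omega
        rw [h3, decide_eq_true h4, h2, Bool.true_and]
      · have h3 : ¬ i / 21 < m + 1 := by omega
        rw [decide_eq_false h3, Bool.false_and]
        apply Nat.testBit_lt_two_pow
        refine lt_of_lt_of_le (hd m) ?_
        exact Nat.pow_le_pow_right (by norm_num) (by omega)

theorem F_land (m : ℕ) (d e : ℕ → ℕ) (hd : ∀ y, d y < 2 ^ 21) (he : ∀ y, e y < 2 ^ 21) :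
    F m d &&& F m e = F m (fun y => d y &&& e y) := by
  apply Nat.eq_of_testBit_eq
  intro i
  rw [Nat.testBit_and, F_testBit m d hd, F_testBit m e he,
    F_testBit m _ (fun y => Nat.and_lt_two_pow _ (he y)), Nat.testBit_and]
  cases decide (i / 21 < m) <;> simp

theorem F_lor (m : ℕ) (d e : ℕ → ℕ) (hd : ∀ y, d y < 2 ^ 21) (he : ∀ y, e y < 2 ^ 21) :
    F m d ||| F m e = F m (fun y => d y ||| e y) := by
  apply Nat.eq_of_testBit_eq
  intro i
  rw [Nat.testBit_or, F_testBit m d hd, F_testBit m e he,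
    F_testBit m _ (fun y => Nat.or_lt_two_pow (hd y) (he y)), Nat.testBit_or]
  cases decide (i / 21 < m) <;> simp

theorem F_sub (m : ℕ) (d e : ℕ → ℕ) (h : ∀ y, e y ≤ d y) :
    F m d = F m (fun y => d y - e y) + F m e := by
  unfold F
  rw [← Finset.sum_add_distrib]
  refine Finset.sum_congr rfl fun y _ => ?_
  rw [← add_mul, Nat.sub_add_cancel (h y)]

theorem F_mul (m c : ℕ) (d : ℕ → ℕ) : c * F m d = F m (fun y => c * d y) := by
  unfold F
  rw [Finset.mul_sum]
  exact Finset.sum_congr rfl fun y _ => by ring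

theorem land64 {x x' : ℕ} (y y' : ℕ) (hx : x < 2 ^ 64) (hx' : x' < 2 ^ 64) :
    (2 ^ 64 * y + x) &&& (2 ^ 64 * y' + x') = 2 ^ 64 * (y &&& y') + (x &&& x') := by
  apply Nat.eq_of_testBit_eq
  intro i
  rw [Nat.testBit_and, Nat.testBit_two_pow_mul_add _ hx, Nat.testBit_two_pow_mul_add _ hx',
    Nat.testBit_two_pow_mul_add _ (Nat.and_lt_two_pow _ hx'), Nat.testBit_and, Nat.testBit_and]
  split_ifs <;> rfl

theorem lor64 {x x' : ℕ} (y y' : ℕ) (hx : x < 2 ^ 64) (hx' : x' < 2 ^ 64) :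
    (2 ^ 64 * y + x) ||| (2 ^ 64 * y' + x') = 2 ^ 64 * (y ||| y') + (x ||| x') := by
  apply Nat.eq_of_testBit_eq
  intro i
  rw [Nat.testBit_or, Nat.testBit_two_pow_mul_add _ hx, Nat.testBit_two_pow_mul_add _ hx',
    Nat.testBit_two_pow_mul_add _ (Nat.or_lt_two_pow hx hx'), Nat.testBit_or, Nat.testBit_or]
  split_ifs <;> rfl

/-- the fields of a number -/
theorem fields (A : ℕ) (hA : A < 2 ^ 399) : A = F 19 (fun y => A / 2 ^ (21 * y) % 2 ^ 21) := by
  apply Nat.eq_of_testBit_eq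
  intro i
  rw [F_testBit _ _ (fun y => Nat.mod_lt _ (by norm_num)), Nat.testBit_mod_two_pow,
    Nat.testBit_div_two_pow]
  have h1 : i % 21 < 21 := Nat.mod_lt _ (by norm_num)
  rw [decide_eq_true h1, Bool.true_and, show i % 21 + 21 * (i / 21) = i from Nat.mod_add_div i 21]
  by_cases h2 : i / 21 < 19
  · rw [decide_eq_true h2, Bool.true_and]
  · rw [decide_eq_false h2, Bool.false_and]
    apply Nat.testBit_lt_two_pow
    refine lt_of_lt_of_le hA ?_
    clear hA
    have h3 : 399 ≤ i := by omega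
    exact Nat.pow_le_pow_right (by norm_num) h3

theorem testBit_sum (S : Finset ℕ) (z : ℕ) : (∑ y ∈ S, 2 ^ y).testBit z = decide (z ∈ S) := by
  induction S using Finset.induction_on_max with
  | empty => simp
  | insert a S ha ih =>
    have hn : a ∉ S := fun h => lt_irrefl _ (ha a h)
    have hlt : ∑ y ∈ S, 2 ^ y < 2 ^ a := Nat.geomSum_lt (le_refl 2) ha
    rw [Finset.sum_insert hn]
    have e : 2 ^ a + ∑ y ∈ S, 2 ^ y = 2 ^ a * 1 + ∑ y ∈ S, 2 ^ y := by ring
    rw [e, Nat.testBit_two_pow_mul_add _ hlt, ih]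
    by_cases h1 : z < a
    · rw [if_pos h1]
      have : z ≠ a := by omega
      simp [this]
    · rw [if_neg h1]
      by_cases h2 : z = a
      · subst h2
        simp
      · have h3 : z - a ≠ 0 := by omega
        have h4 : z ∉ S := fun h => by have := ha z h; omega
        rw [show (1 : ℕ) = 2 ^ 0 from rfl, Nat.testBit_two_pow]
        simp [h2, h4, Ne.symm h3]

/-- restriction of a digit function -/
def ite' (T : Finset ℕ) (f : ℕ) (y : ℕ) : ℕ := if y ∈ T then f else 0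

theorem ite'_lt (T : Finset ℕ) {f : ℕ} (hf : f < 2 ^ 21) (y : ℕ) : ite' T f y < 2 ^ 21 := by
  unfold ite'
  split_ifs
  · exact hf
  · norm_num

theorem F_ite (T : Finset ℕ) (hT : ∀ y ∈ T, y < 19) (f : ℕ) :
    F 19 (ite' T f) = ∑ y ∈ T, f * 2 ^ (21 * y) := by
  unfold F ite'
  simp_rw [ite_mul, zero_mul]
  rw [Finset.sum_ite_mem, Finset.inter_eq_right.2 fun y hy => Finset.mem_range.2 (hT y hy)]

theorem gs_eq (T : Finset ℕ) (hT : ∀ y ∈ T, y < 19) : gs T = 2 ^ 64 * F 19 (ite' T (2 ^ 20)) + vs T := by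
  rw [F_ite T hT]
  unfold gs vs
  rw [Finset.sum_add_distrib, add_comm, Finset.mul_sum]
  congr 1
  refine Finset.sum_congr rfl fun y _ => ?_
  rw [pow_add]
  ring

theorem vs_lt (T : Finset ℕ) (hT : ∀ y ∈ T, y < 19) : vs T < 2 ^ 19 := Nat.geomSum_lt (le_refl 2) hT

theorem shift20 (T : Finset ℕ) (c v : ℕ) :
    (c * (2 ^ 64 * F 19 (ite' T (2 ^ 20)) + v)) >>> 20 = 2 ^ 64 * F 19 (ite' T c) + c * v / 2 ^ 20 := by
  have h1 : c * F 19 (ite' T (2 ^ 20)) = 2 ^ 20 * F 19 (ite' T c) := by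
    rw [F_mul, F_mul]
    congr 1
    funext y
    unfold ite'
    split_ifs
    · ring
    · ring
  have h2 : c * (2 ^ 64 * F 19 (ite' T (2 ^ 20)) + v) = 2 ^ 20 * (2 ^ 64 * F 19 (ite' T c)) + c * v := by
    linear_combination 2 ^ 64 * h1
  rw [h2, Nat.shiftRight_eq_div_pow, Nat.mul_add_div (by norm_num)]

theorem digit {x : ℕ} (hx : x < 2 ^ 19) : ((x ||| 2 ^ 20) - 1) &&& 2 ^ 20 = if x ≠ 0 then 2 ^ 20 else 0 := by
  have h1 : x ||| 2 ^ 20 = 2 ^ 20 * 1 + x := by
    rw [Nat.two_pow_add_eq_or_of_lt (lt_trans hx (by norm_num)), mul_one, Nat.lor_comm]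
  rw [h1, Nat.and_two_pow]
  split_ifs with h
  · have h2 : (2 ^ 20 * 1 + x - 1).testBit 20 = true := by
      have h3 : 2 ^ 20 * 1 + x - 1 = 2 ^ 20 * 1 + (x - 1) := by omega
      rw [h3, Nat.testBit_two_pow_mul_add _ (by omega)]
      simp
    rw [h2]
    rfl
  · have h2 : x = 0 := by
      by_contra hne
      exact h hne
    subst h2
    have h3 : (2 ^ 20 * 1 + 0 - 1).testBit 20 = false := by
      apply Nat.testBit_lt_two_pow
      norm_num
    rw [h3]
    rfl

theorem nbr_testBit (a c : ℕ) (T : Finset ℕ) (hT : ∀ y ∈ T, y < 19) (ha : a < 2 ^ 463)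
    (hg : ∀ y < 19, a.testBit (84 + 21 * y) = false) (hc : c < 2 ^ 19) (z : ℕ) :
    (nbr a (gs T) c).testBit z = true ↔
      (c.testBit z = true ∨ (z ∈ T ∧ ∃ y, c.testBit y = true ∧ a.testBit (64 + 21 * z + y) = true)) := by
  have hv := vs_lt T hT
  have hv64 : vs T < 2 ^ 64 := lt_trans hv (by norm_num)
  set v := vs T with hvdef
  -- the fields of `a`
  set A := a / 2 ^ 64 with hA
  set al := a % 2 ^ 64 with hal
  have hal64 : al < 2 ^ 64 := Nat.mod_lt _ (by norm_num)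
  have haA : a = 2 ^ 64 * A + al := (Nat.div_add_mod a (2 ^ 64)).symm
  have hAlt : A < 2 ^ 399 := by
    rw [hA, Nat.div_lt_iff_lt_mul (by norm_num), ← pow_add]
    exact ha
  set dA : ℕ → ℕ := fun y => A / 2 ^ (21 * y) % 2 ^ 21 with hdA
  have hdlt : ∀ y, dA y < 2 ^ 21 := fun y => Nat.mod_lt _ (by norm_num)
  have hAF : A = F 19 dA := fields A hAlt
  -- the set
  set S : Finset ℕ := T.filter (fun y => c &&& dA y ≠ 0) with hS
  have hc21 : c < 2 ^ 21 := lt_trans hc (by norm_num)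
  have hx19 : ∀ y, c &&& dA y < 2 ^ 19 := fun y => by
    rw [Nat.land_comm]
    exact Nat.and_lt_two_pow _ hc
  -- step 1
  have s1 : (c * gs T) >>> 20 = 2 ^ 64 * F 19 (ite' T c) + c * v / 2 ^ 20 := by
    rw [gs_eq T hT, shift20]
  have hu : c * v / 2 ^ 20 < 2 ^ 64 := by
    have : c * v < 2 ^ 19 * 2 ^ 19 := Nat.mul_lt_mul'' hc hv
    omega
  -- step 2
  have s2 : (c * gs T) >>> 20 &&& a =
      2 ^ 64 * F 19 (fun y => ite' T c y &&& dA y) + (c * v / 2 ^ 20 &&& al) := by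
    rw [s1]
    conv_lhs => rw [haA, hAF]
    rw [land64 _ _ hu hal64, F_land _ _ _ (ite'_lt T hc21) hdlt]
  have hw2 : (c * v / 2 ^ 20 &&& al) < 2 ^ 64 := Nat.and_lt_two_pow _ hal64
  have h20 : ∀ y, ite' T (2 ^ 20) y < 2 ^ 21 := ite'_lt T (by norm_num)
  have h2lt : ∀ y, (ite' T c y &&& dA y) < 2 ^ 21 := fun y => Nat.and_lt_two_pow _ (hdlt y)
  -- step 3
  have s3 : ((c * gs T) >>> 20 &&& a) ||| gs T =
      2 ^ 64 * F 19 (fun y => (ite' T c y &&& dA y) ||| ite' T (2 ^ 20) y) +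
        ((c * v / 2 ^ 20 &&& al) ||| v) := by
    rw [s2]
    conv_lhs => rw [gs_eq T hT]
    rw [lor64 _ _ hw2 hv64, F_lor _ _ _ h2lt h20]
  have hw3 : ((c * v / 2 ^ 20 &&& al) ||| v) < 2 ^ 64 := Nat.or_lt_two_pow hw2 hv64
  -- step 4
  have s4a : gs T >>> 20 = 2 ^ 64 * F 19 (ite' T 1) := by
    have h1 := shift20 T 1 v
    rw [one_mul, ← gs_eq T hT] at h1
    rw [h1]
    have : 1 * v / 2 ^ 20 = 0 := by
      rw [one_mul]
      exact Nat.div_eq_of_lt (lt_trans hv (by norm_num))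
    rw [this, add_zero]
  have s4 : (((c * gs T) >>> 20 &&& a) ||| gs T) - gs T >>> 20 =
      2 ^ 64 * F 19 (fun y => ((ite' T c y &&& dA y) ||| ite' T (2 ^ 20) y) - ite' T 1 y) +
        ((c * v / 2 ^ 20 &&& al) ||| v) := by
    rw [s3, s4a, F_sub 19 (fun y => (ite' T c y &&& dA y) ||| ite' T (2 ^ 20) y) (ite' T 1) ?_]
    · omega
    · intro y
      show ite' T 1 y ≤ (ite' T c y &&& dA y) ||| ite' T (2 ^ 20) y
      refine le_trans ?_ Nat.right_le_or
      unfold ite'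
      split_ifs
      · norm_num
      · exact le_refl _
  -- step 5
  have s5 : ((((c * gs T) >>> 20 &&& a) ||| gs T) - gs T >>> 20) &&& gs T =
      2 ^ 64 * F 19 (ite' S (2 ^ 20)) + (((c * v / 2 ^ 20 &&& al) ||| v) &&& v) := by
    rw [s4]
    conv_lhs => rw [gs_eq T hT]
    rw [land64 _ _ hw3 hv64, F_land _ _ _ ?_ h20]
    · congr 3
      funext y
      unfold ite'
      by_cases h1 : y ∈ T
      · rw [if_pos h1, if_pos h1, if_pos h1, digit (hx19 y)]
        by_cases h2 : c &&& dA y = 0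
        · have h3 : y ∉ S := by rw [hS, Finset.mem_filter]; tauto
          rw [if_neg h3, if_neg (not_not.2 h2)]
        · have h3 : y ∈ S := by rw [hS, Finset.mem_filter]; exact ⟨h1, h2⟩
          rw [if_pos h3, if_pos h2]
      · have h3 : y ∉ S := by rw [hS, Finset.mem_filter]; tauto
        rw [if_neg h1, if_neg h1, if_neg h1, if_neg h3]
        simp
    · intro y
      refine lt_of_le_of_lt (Nat.sub_le _ _) (Nat.or_lt_two_pow (h2lt y) (h20 y))
  have hw5 : (((c * v / 2 ^ 20 &&& al) ||| v) &&& v) < 2 ^ 64 := Nat.and_lt_two_pow _ hv64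
  have hTS : ∀ y ∈ S, y < 19 := fun y hy => hT y (Finset.mem_filter.1 hy).1
  -- step 6
  have s6 : (((((c * gs T) >>> 20 &&& a) ||| gs T) - gs T >>> 20) &&& gs T) >>> 84 =
      ∑ y ∈ S, 2 ^ (21 * y) := by
    rw [s5, F_ite S hTS, ← Finset.mul_sum]
    have e : 2 ^ 64 * (2 ^ 20 * ∑ y ∈ S, 2 ^ (21 * y)) + (((c * v / 2 ^ 20 &&& al) ||| v) &&& v) =
        2 ^ 84 * (∑ y ∈ S, 2 ^ (21 * y)) + (((c * v / 2 ^ 20 &&& al) ||| v) &&& v) := by ring
    rw [e, Nat.shiftRight_eq_div_pow, Nat.mul_add_div (by norm_num),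
      Nat.div_eq_of_lt (lt_trans hw5 (by norm_num)), add_zero]
  -- step 7
  have s7 : (((((c * gs T) >>> 20 &&& a) ||| gs T) - gs T >>> 20) &&& gs T) >>> 84 % 1048575 =
      ∑ y ∈ S, 2 ^ y := by
    rw [s6]
    have h1 : ∑ y ∈ S, 2 ^ (21 * y) ≡ ∑ y ∈ S, 2 ^ y [MOD 1048575] := by
      refine Nat.ModEq.sum fun y _ => ?_
      have e : 2 ^ (21 * y) = (2 ^ 20) ^ y * 2 ^ y := by
        rw [← pow_mul, ← pow_add]
        congr 1
        ring
      rw [e]
      have h2 : (2 ^ 20) ^ y ≡ 1 ^ y [MOD 1048575] := Nat.ModEq.pow y (by decide)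
      rw [one_pow] at h2
      have h3 := h2.mul_right (2 ^ y)
      rwa [one_mul] at h3
    have h2 : ∑ y ∈ S, 2 ^ y < 1048575 := by
      have : ∑ y ∈ S, 2 ^ y < 2 ^ 19 := Nat.geomSum_lt (le_refl 2) hTS
      exact lt_trans this (by norm_num)
    have h3 : (∑ y ∈ S, 2 ^ (21 * y)) % 1048575 = (∑ y ∈ S, 2 ^ y) % 1048575 := h1
    rw [h3, Nat.mod_eq_of_lt h2]
  have hn : nbr a (gs T) c = c ||| ∑ y ∈ S, 2 ^ y := by
    rw [← s7]
    rfl
  rw [hn, Nat.testBit_or, testBit_sum, Bool.or_eq_true, decide_eq_true_iff]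
  apply or_congr Iff.rfl
  rw [hS, Finset.mem_filter]
  apply and_congr_right
  intro hz
  -- the bits of the fields
  have hbit : ∀ y, (c &&& dA z).testBit y = true ↔ c.testBit y = true ∧ a.testBit (64 + 21 * z + y) = true := by
    intro y
    rw [Nat.testBit_and, Bool.and_eq_true]
    constructor
    · rintro ⟨h1, h2⟩
      refine ⟨h1, ?_⟩
      rw [hdA] at h2
      simp only at h2
      rw [Nat.testBit_mod_two_pow, Nat.testBit_div_two_pow, hA, Nat.testBit_div_two_pow,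
        Bool.and_eq_true] at h2
      rw [show 64 + 21 * z + y = y + 21 * z + 64 by ring]
      exact h2.2
    · rintro ⟨h1, h2⟩
      refine ⟨h1, ?_⟩
      have hy : y < 21 := by
        by_contra hy
        have : c.testBit y = false := by
          apply Nat.testBit_lt_two_pow
          exact lt_of_lt_of_le hc21 (Nat.pow_le_pow_right (by norm_num) (not_lt.1 hy))
        rw [this] at h1
        exact Bool.noConfusion h1
      rw [hdA]
      simp only
      rw [Nat.testBit_mod_two_pow, Nat.testBit_div_two_pow, hA, Nat.testBit_div_two_pow,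
        Bool.and_eq_true, decide_eq_true_iff]
      rw [show 64 + 21 * z + y = y + 21 * z + 64 by ring] at h2
      exact ⟨hy, h2⟩
  constructor
  · intro h
    obtain ⟨y, hy⟩ := Nat.exists_testBit_of_ne_zero h
    exact ⟨y, (hbit y).1 hy⟩
  · rintro ⟨y, hy⟩ h0
    have := (hbit y).2 hy
    rw [h0, Nat.zero_testBit] at this
    exact Bool.noConfusion this

end Pool.Agent.H110.Refl.A2
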