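import Pool.Agent.H110.Refl.A1
import Pool.Agent.H110.Refl.A2

namespace Pool.Agent.H110.Refl

/-- code of a set of unvisited vertices -/
def gs (T : Finset ℕ) : ℕ := ∑ y ∈ T, (2 ^ y + 2 ^ (84 + 21 * y))

/-- code of a set of unvisited vertices (compact) -/
def vs (T : Finset ℕ) : ℕ := ∑ y ∈ T, 2 ^ y

theorem degE_true (a : ℕ) (T : Finset ℕ) (hT : ∀ y ∈ T, y < 19) (ha : a < 2 ^ 463)
    (hg : ∀ y < 19, a.testBit (84 + 21 * y) = false)
    (h2 : ∀ y ∈ T, ∃ z w, z < w ∧ w < 20 ∧ a.testBit (64 + 21 * y + z) = true ∧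
      a.testBit (64 + 21 * y + w) = true) : degE a (gs T) = true :=
  A1.degE_true a T hT ha hg h2

theorem nbr_testBit (a c : ℕ) (T : Finset ℕ) (hT : ∀ y ∈ T, y < 19) (ha : a < 2 ^ 463)
    (hg : ∀ y < 19, a.testBit (84 + 21 * y) = false) (hc : c < 2 ^ 19) (z : ℕ) :
    (nbr a (gs T) c).testBit z = true ↔
      (c.testBit z = true ∨ (z ∈ T ∧ ∃ y, c.testBit y = true ∧ a.testBit (64 + 21 * z + y) = true)) :=
  A2.nbr_testBit a c T hT ha hg hc z

end Pool.Agent.H110.Refl
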