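import Mathlib
import Pool.Agent.H110.Refl.AlgA

namespace Pool.Agent.H110.Refl.A1

open Pool.Agent.H110.Refl Finset

/-- code of a set of unvisited vertices -/
def gs (T : Finset ℕ) : ℕ := ∑ y ∈ T, (2 ^ y + 2 ^ (84 + 21 * y))

/-- code of a set of unvisited vertices (compact) -/
def vs (T : Finset ℕ) : ℕ := ∑ y ∈ T, 2 ^ y

/-! ### Digits -/

theorem land_split (k x y x' y' : ℕ) (hx : x < 2 ^ k) (hx' : x' < 2 ^ k) :
    (2 ^ k * y + x) &&& (2 ^ k * y' + x') = 2 ^ k * (y &&& y') + (x &&& x') := by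
  apply Nat.eq_of_testBit_eq
  intro j
  rw [Nat.testBit_and, Nat.testBit_two_pow_mul_add _ hx, Nat.testBit_two_pow_mul_add _ hx',
    Nat.testBit_two_pow_mul_add _ (Nat.and_lt_two_pow x hx')]
  by_cases h : j < k
  · rw [if_pos h, if_pos h, if_pos h, Nat.testBit_and]
  · rw [if_neg h, if_neg h, if_neg h, Nat.testBit_and]

theorem lor_split (k x y x' y' : ℕ) (hx : x < 2 ^ k) (hx' : x' < 2 ^ k) :
    (2 ^ k * y + x) ||| (2 ^ k * y' + x') = 2 ^ k * (y ||| y') + (x ||| x') := by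
  apply Nat.eq_of_testBit_eq
  intro j
  rw [Nat.testBit_or, Nat.testBit_two_pow_mul_add _ hx, Nat.testBit_two_pow_mul_add _ hx',
    Nat.testBit_two_pow_mul_add _ (Nat.or_lt_two_pow hx hx')]
  by_cases h : j < k
  · rw [if_pos h, if_pos h, if_pos h, Nat.testBit_or]
  · rw [if_neg h, if_neg h, if_neg h, Nat.testBit_or]

theorem sub_split (k x y x' y' : ℕ) (hx : x' ≤ x) (hy : y' ≤ y) :
    (2 ^ k * y + x) - (2 ^ k * y' + x') = 2 ^ k * (y - y') + (x - x') := by
  have h1 : 2 ^ k * y' ≤ 2 ^ k * y := Nat.mul_le_mul_left _ hy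
  rw [Nat.mul_sub]
  omega

/-- the number with the digits `d` -/
def F : ℕ → (ℕ → ℕ) → ℕ
  | 0, _ => 0
  | m + 1, d => 2 ^ (21 * m) * d m + F m d

theorem F_lt {d : ℕ → ℕ} (hd : ∀ y, d y < 2 ^ 21) : ∀ m, F m d < 2 ^ (21 * m)
  | 0 => by simp [F]
  | m + 1 => by
    have ih := F_lt hd m
    have h1 : 2 ^ (21 * m) * (d m + 1) ≤ 2 ^ (21 * m) * 2 ^ 21 := Nat.mul_le_mul_left _ (hd m)
    have h2 : 2 ^ (21 * (m + 1)) = 2 ^ (21 * m) * 2 ^ 21 := by rw [← pow_add]; ring_nf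
    rw [F, h2]
    rw [Nat.mul_add, Nat.mul_one] at h1
    omega

theorem F_land {d e : ℕ → ℕ} (hd : ∀ y, d y < 2 ^ 21) (he : ∀ y, e y < 2 ^ 21) :
    ∀ m, F m d &&& F m e = F m (fun y => d y &&& e y)
  | 0 => by simp [F]
  | m + 1 => by
    simp only [F]
    rw [land_split _ _ _ _ _ (F_lt hd m) (F_lt he m), F_land hd he m]

theorem F_lor {d e : ℕ → ℕ} (hd : ∀ y, d y < 2 ^ 21) (he : ∀ y, e y < 2 ^ 21) :
    ∀ m, F m d ||| F m e = F m (fun y => d y ||| e y)
  | 0 => by simp [F]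
  | m + 1 => by
    simp only [F]
    rw [lor_split _ _ _ _ _ (F_lt hd m) (F_lt he m), F_lor hd he m]

theorem F_mono {d e : ℕ → ℕ} (hde : ∀ y, e y ≤ d y) : ∀ m, F m e ≤ F m d
  | 0 => le_rfl
  | m + 1 => Nat.add_le_add (Nat.mul_le_mul_left _ (hde m)) (F_mono hde m)

theorem F_sub {d e : ℕ → ℕ} (hde : ∀ y, e y ≤ d y) :
    ∀ m, F m d - F m e = F m (fun y => d y - e y)
  | 0 => rfl
  | m + 1 => by
    simp only [F]
    rw [sub_split _ _ _ _ _ (F_mono hde m) (hde m), F_sub hde m]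

theorem F_congr {d e : ℕ → ℕ} : ∀ m, (∀ y, y < m → d y = e y) → F m d = F m e
  | 0, _ => rfl
  | m + 1, h => by
    simp only [F]
    rw [h m (Nat.lt_succ_self m), F_congr m fun y hy => h y (Nat.lt_succ_of_lt hy)]

theorem F_mod (b : ℕ) : ∀ m, F m (fun y => b / 2 ^ (21 * y) % 2 ^ 21) = b % 2 ^ (21 * m)
  | 0 => by simp [F, Nat.mod_one]
  | m + 1 => by
    have h2 : 2 ^ (21 * (m + 1)) = 2 ^ (21 * m) * 2 ^ 21 := by rw [← pow_add]; ring_nf
    rw [F, F_mod b m, h2, Nat.mod_mul]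
    ring

theorem F_sum (d : ℕ → ℕ) : ∀ m, F m d = ∑ y ∈ range m, 2 ^ (21 * y) * d y
  | 0 => by simp [F]
  | m + 1 => by
    rw [sum_range_succ, F, F_sum d m]
    ring

/-- the number with the low part `l` and the fields `d` -/
def P (l : ℕ) (d : ℕ → ℕ) : ℕ := 2 ^ 64 * F 19 d + l

theorem P_land {l l' : ℕ} {d e : ℕ → ℕ} (hl : l < 2 ^ 64) (hl' : l' < 2 ^ 64)
    (hd : ∀ y, d y < 2 ^ 21) (he : ∀ y, e y < 2 ^ 21) :
    P l d &&& P l' e = P (l &&& l') (fun y => d y &&& e y) := by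
  unfold P
  rw [land_split _ _ _ _ _ hl hl', F_land hd he]

theorem P_lor {l l' : ℕ} {d e : ℕ → ℕ} (hl : l < 2 ^ 64) (hl' : l' < 2 ^ 64)
    (hd : ∀ y, d y < 2 ^ 21) (he : ∀ y, e y < 2 ^ 21) :
    P l d ||| P l' e = P (l ||| l') (fun y => d y ||| e y) := by
  unfold P
  rw [lor_split _ _ _ _ _ hl hl', F_lor hd he]

theorem P_sub {l : ℕ} {d e : ℕ → ℕ} (hde : ∀ y, e y ≤ d y) :
    P l d - P 0 e = P l (fun y => d y - e y) := by
  unfold P
  rw [sub_split _ _ _ _ _ (Nat.zero_le l) (F_mono hde 19), F_sub hde, Nat.sub_zero]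

theorem P_congr {l l' : ℕ} {d e : ℕ → ℕ} (hl : l = l') (h : ∀ y, y < 19 → d y = e y) :
    P l d = P l' e := by
  unfold P
  rw [hl, F_congr 19 h]

/-! ### The codes -/

/-- indicator digits -/
def ind (T : Finset ℕ) (c : ℕ) (y : ℕ) : ℕ := if y ∈ T then c else 0

theorem ind_le (T : Finset ℕ) (c y : ℕ) : ind T c y ≤ c := by
  unfold ind; split_ifs <;> simp

theorem vs_lt (T : Finset ℕ) (hT : ∀ y ∈ T, y < 19) : vs T < 2 ^ 19 := by
  have h1 : vs T ≤ ∑ y ∈ range 19, 2 ^ y :=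
    sum_le_sum_of_subset fun y hy => mem_range.2 (hT y hy)
  have h2 : ∑ y ∈ range 19, 2 ^ y = 2 ^ 19 - 1 := by decide
  omega

theorem F_ind (T : Finset ℕ) (hT : ∀ y ∈ T, y < 19) (c : ℕ) :
    F 19 (ind T c) = ∑ y ∈ T, 2 ^ (21 * y) * c := by
  rw [F_sum]
  have hsub : T ⊆ range 19 := fun y hy => mem_range.2 (hT y hy)
  rw [← sum_subset hsub (f := fun y => 2 ^ (21 * y) * ind T c y)
    (fun y _ hy => by simp [ind, hy])]
  exact sum_congr rfl fun y hy => by simp [ind, hy]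

theorem gs_eq (T : Finset ℕ) (hT : ∀ y ∈ T, y < 19) : gs T = P (vs T) (ind T (2 ^ 20)) := by
  unfold gs P vs
  rw [sum_add_distrib, F_ind T hT, mul_sum, add_comm]
  congr 1
  refine sum_congr rfl fun y _ => ?_
  rw [← mul_assoc, ← pow_add, ← pow_add]
  congr 1
  ring

theorem gs_shift (T : Finset ℕ) (hT : ∀ y ∈ T, y < 19) : gs T >>> 20 = P 0 (ind T 1) := by
  have hv := vs_lt T hT
  rw [gs_eq T hT, Nat.shiftRight_eq_div_pow]
  unfold P
  have h1 : F 19 (ind T (2 ^ 20)) = 2 ^ 20 * F 19 (ind T 1) := by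
    rw [F_ind T hT, F_ind T hT, mul_sum]
    exact sum_congr rfl fun y _ => by ring
  rw [h1, show 2 ^ 64 * (2 ^ 20 * F 19 (ind T 1)) + vs T =
    vs T + 2 ^ 20 * (2 ^ 64 * F 19 (ind T 1)) by ring, Nat.add_mul_div_left _ _ (by norm_num),
    Nat.div_eq_of_lt (by omega)]
  ring

/-- the fields of `a` -/
def A (a y : ℕ) : ℕ := a / 2 ^ 64 / 2 ^ (21 * y) % 2 ^ 21

theorem a_eq (a : ℕ) (ha : a < 2 ^ 463) : a = P (a % 2 ^ 64) (A a) := by
  unfold P A
  rw [F_mod (a / 2 ^ 64) 19, Nat.mod_eq_of_lt (a := a / 2 ^ 64)]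
  · exact (Nat.div_add_mod a (2 ^ 64)).symm
  · rw [Nat.div_lt_iff_lt_mul (by norm_num), ← pow_add]
    exact ha

theorem A_testBit (a y z : ℕ) (hz : z < 21) : (A a y).testBit z = a.testBit (64 + 21 * y + z) := by
  unfold A
  rw [Nat.testBit_mod_two_pow, Nat.div_div_eq_div_mul, ← pow_add, Nat.testBit_div_two_pow]
  simp [hz, add_comm]

theorem A_lt (a y : ℕ) (hg : a.testBit (84 + 21 * y) = false) : A a y < 2 ^ 20 := by
  have h1 : A a y < 2 ^ 21 := Nat.mod_lt _ (by norm_num)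
  by_contra h
  have h2 : (A a y).testBit 20 = true := by
    have h3 : A a y / 2 ^ 20 = 1 := by
      rw [Nat.div_eq_iff (by norm_num)]
      omega
    rw [Nat.testBit_eq_decide_div_mod_eq, h3]
    rfl
  rw [A_testBit a y 20 (by norm_num), show 64 + 21 * y + 20 = 84 + 21 * y by ring, hg] at h2
  exact absurd h2 (by simp)

/-- a number with two bits has a common bit with its predecessor -/
theorem pred_bit (n z w : ℕ) (hzw : z < w) (hz : n.testBit z = true) (hw : n.testBit w = true) :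
    (n - 1).testBit w = true := by
  have h1 : n = 2 ^ w * (n / 2 ^ w) + n % 2 ^ w := (Nat.div_add_mod n (2 ^ w)).symm
  have h2 : n % 2 ^ w ≠ 0 := by
    intro h0
    have : (n % 2 ^ w).testBit z = true := by
      rw [Nat.testBit_mod_two_pow]
      simp [hzw, hz]
    rw [h0] at this
    simp at this
  have h3 : n - 1 = 2 ^ w * (n / 2 ^ w) + (n % 2 ^ w - 1) := by omega
  have h4 : n % 2 ^ w < 2 ^ w := Nat.mod_lt _ (by positivity)
  rw [h3, Nat.testBit_two_pow_mul_add _ (by omega), if_neg (lt_irrefl w), Nat.sub_self]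
  rw [h1, Nat.testBit_two_pow_mul_add _ h4, if_neg (lt_irrefl w), Nat.sub_self] at hw
  exact hw

/-- one field -/
theorem digit (d z w : ℕ) (hd : d < 2 ^ 20) (hzw : z < w) (hz : d.testBit z = true)
    (hw : d.testBit w = true) :
    ((((d &&& ((d ||| 2 ^ 20) - 1)) ||| 2 ^ 20) - 1) &&& 2 ^ 20) = 2 ^ 20 := by
  have hor : ∀ x, x < 2 ^ 20 → x ||| 2 ^ 20 = 2 ^ 20 * 1 + x := by
    intro x hx
    have := Nat.two_pow_add_eq_or_of_lt hx 1
    rw [this, Nat.or_comm, Nat.mul_one]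
  have hd0 : d ≠ 0 := by
    rintro rfl
    simp at hz
  have e1 : (d ||| 2 ^ 20) - 1 = 2 ^ 20 * 1 + (d - 1) := by
    rw [hor d hd]
    omega
  have e2 : d &&& ((d ||| 2 ^ 20) - 1) = d &&& (d - 1) := by
    rw [e1]
    have := land_split 20 d 0 (d - 1) 1 hd (by omega)
    rw [Nat.mul_zero, Nat.zero_add] at this
    rw [this, Nat.zero_and, Nat.mul_zero, Nat.zero_add]
  rw [e2]
  set q := d &&& (d - 1) with hq
  have hqlt : q < 2 ^ 20 := lt_of_le_of_lt Nat.and_le_left hd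
  have hq0 : q ≠ 0 := by
    intro h0
    have : q.testBit w = true := by
      rw [hq, Nat.testBit_and, hw, pred_bit d z w hzw hz hw]
      rfl
    rw [h0] at this
    simp at this
  have e3 : (q ||| 2 ^ 20) - 1 = 2 ^ 20 * 1 + (q - 1) := by
    rw [hor q hqlt]
    omega
  rw [e3]
  have := land_split 20 (q - 1) 1 0 1 (by omega) (by norm_num)
  rw [Nat.mul_one, Nat.add_zero] at this
  rw [Nat.mul_one, this]
  simp

theorem degE_true (a : ℕ) (T : Finset ℕ) (hT : ∀ y ∈ T, y < 19) (ha : a < 2 ^ 463)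
    (hg : ∀ y < 19, a.testBit (84 + 21 * y) = false)
    (h2 : ∀ y ∈ T, ∃ z w, z < w ∧ w < 20 ∧ a.testBit (64 + 21 * y + z) = true ∧
      a.testBit (64 + 21 * y + w) = true) : degE a (gs T) = true := by
  have hgoal : ((((a &&& ((a ||| gs T) - (gs T >>> 20))) ||| gs T) - (gs T >>> 20)) &&& gs T) =
      gs T := by
    have hv : vs T < 2 ^ 64 := lt_of_lt_of_le (vs_lt T hT) (by norm_num)
    -- digits of `a` truncated to the first 19 fields
    set D : ℕ → ℕ := fun y => if y < 19 then A a y else 0 with hD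
    set l := a % 2 ^ 64 with hl
    have hll : l < 2 ^ 64 := Nat.mod_lt _ (by norm_num)
    have haP : a = P l D := by
      rw [a_eq a ha]
      exact P_congr rfl fun y hy => by simp only [hD, if_pos hy]
    have hD20 : ∀ y, D y < 2 ^ 20 := by
      intro y
      simp only [hD]
      split_ifs with h
      · exact A_lt a y (hg y h)
      · norm_num
    have hD21 : ∀ y, D y < 2 ^ 21 := fun y => lt_trans (hD20 y) (by norm_num)
    have hI21 : ∀ y, ind T (2 ^ 20) y < 2 ^ 21 := fun y =>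
      lt_of_le_of_lt (ind_le T _ y) (by norm_num)
    have hsub1 : ∀ (d : ℕ → ℕ) (y : ℕ), ind T 1 y ≤ (d y ||| ind T (2 ^ 20) y) := by
      intro d y
      unfold ind
      split_ifs with h
      · exact le_trans (by norm_num) Nat.right_le_or
      · exact Nat.zero_le _
    have hor21 : ∀ (d : ℕ → ℕ), (∀ y, d y < 2 ^ 21) → ∀ y, (d y ||| ind T (2 ^ 20) y) < 2 ^ 21 :=
      fun d hd y => Nat.or_lt_two_pow (hd y) (hI21 y)
    rw [gs_shift T hT, gs_eq T hT, haP, P_lor hll hv hD21 hI21, P_sub (hsub1 D),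
      P_land hll (Nat.or_lt_two_pow hll hv) hD21
        (fun y => lt_of_le_of_lt (Nat.sub_le _ _) (hor21 D hD21 y))]
    set q : ℕ → ℕ := fun y => D y &&& ((D y ||| ind T (2 ^ 20) y) - ind T 1 y) with hq
    have hq21 : ∀ y, q y < 2 ^ 21 := fun y => lt_of_le_of_lt Nat.and_le_left (hD21 y)
    have hl1 : (l &&& (l ||| vs T)) < 2 ^ 64 := lt_of_le_of_lt Nat.and_le_left hll
    rw [P_lor hl1 hv hq21 hI21, P_sub (hsub1 q),
      P_land (Nat.or_lt_two_pow hl1 hv) hv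
        (fun y => lt_of_le_of_lt (Nat.sub_le _ _) (hor21 q hq21 y)) hI21]
    refine P_congr ?_ ?_
    · apply Nat.eq_of_testBit_eq
      intro j
      rw [Nat.testBit_and, Nat.testBit_or]
      cases h : (vs T).testBit j <;> simp
    · intro y hy
      by_cases hyT : y ∈ T
      · obtain ⟨z, w, hzw, hw, hbz, hbw⟩ := h2 y hyT
        have hDy : D y = A a y := by simp only [hD, if_pos hy]
        simp only [hq, ind, if_pos hyT]
        refine digit (D y) z w (hD20 y) hzw ?_ ?_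
        · rw [hDy, A_testBit a y z (by omega)]; exact hbz
        · rw [hDy, A_testBit a y w (by omega)]; exact hbw
      · simp only [ind, if_neg hyT, Nat.and_zero]
  have hb : ∀ x y : ℕ, x = y → Nat.beq x y = true := by
    rintro x _ rfl
    exact Nat.beq_refl x
  exact hb _ _ hgoal

end Pool.Agent.H110.Refl.A1

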