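import Pool.Agent.H110.Refl.AlgB
namespace Pool.Agent.H110.Refl

/-- if-then-else -/
noncomputable def bi (c x y : Bool) : Bool := Bool.rec y x c

/-- `p k` for all `k < n` -/
noncomputable def allB (n : Nat) (p : Nat → Bool) : Bool := Nat.rec true (fun k ih => bi (p k) ih false) n

noncomputable def ob (C a b c : Nat) : Bool := Nat.beq (bit (lft C a b) c) 1

/-- do the segments `w x` and `y z` cross? -/
noncomputable def crsB (w x y z : Nat) : Bool :=
  bi (Nat.beq w y) false (bi (Nat.beq w z) false (bi (Nat.beq x y) false (bi (Nat.beq x z) false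
    (bi (bi (ob CH w x y) (bi (ob CH w x z) false true) (ob CH w x z))
      (bi (ob CH y z w) (bi (ob CH y z x) false true) (ob CH y z x)) false))))

noncomputable def mskChk (n : Nat) : Bool :=
  allB n fun w => allB n fun x => allB n fun y => allB n fun z =>
    bi (Nat.beq (bit (msk w x) (Nat.add (Nat.add 64 (Nat.mul 21 y)) z)) 1) true
      (bi (Nat.beq w x) true (bi (Nat.beq y z) true (bi (Nat.beq y w) true (bi (Nat.beq z w) true (crsB w x y z)))))

/-- guard bits and edges of a root state -/
noncomputable def rootA (D n f a : Nat) : Bool :=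
  bi (Nat.ble (Nat.succ a) (Nat.pow 2 463)) (bi (allB 19 fun y => Nat.beq (bit a (Nat.add 84 (Nat.mul 21 y))) 0)
    (allB n fun y => allB n fun z =>
      bi (Nat.beq (bit a (Nat.add (Nat.add 64 (Nat.mul 21 y)) z)) 1) true
        (bi (Nat.beq y z) true
          (bi (Nat.beq y Sv) (bi (Nat.beq z f) true (bi (ob D z Sv f) false true))
            (bi (Nat.beq z Sv) (bi (Nat.beq y f) true (bi (ob D y Sv f) false true)) (crsB Sv f y z))))) false) false

noncomputable def gsn (n f : Nat) : Nat :=
  Nat.rec 0 (fun y s => Bool.rec (Bool.rec (Nat.add s (kx y)) s (Nat.beq y f)) s (Nat.beq y Sv)) n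

noncomputable def rootChk (C D n f a g b : Nat) : Bool :=
  bi (rootA D n f a) (Nat.beq g (gnew C Sv f a (gsn n f) b)) false

end Pool.Agent.H110.Refl
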