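import Pool.Agent.H110.Refl.Base

namespace Pool.Agent.H110.Refl.G3

open Pool.Agent.H110.Refl

theorem continuous_turn (a b : Pt) : Continuous (fun y : Pt => turn a b y) := by
  unfold turn
  fun_prop

theorem mem_interior_hull (P : Set Pt) (a b c x : Pt) (ha : a ∈ P) (hb : b ∈ P) (hc : c ∈ P)
    (h1 : 0 < turn a b x) (h2 : 0 < turn b c x) (h3 : 0 < turn c a x) :
    x ∈ interior (convexHull ℝ P) := by
  rw [mem_interior]
  refine ⟨{y | 0 < turn a b y ∧ 0 < turn b c y ∧ 0 < turn c a y}, ?_, ?_, h1, h2, h3⟩
  · rintro y ⟨g1, g2, g3⟩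
    obtain ⟨T, hT⟩ : ∃ T, T = turn a b y + turn b c y + turn c a y := ⟨_, rfl⟩
    have hT0 : 0 < T := by rw [hT]; positivity
    have e : y = (turn b c y / T) • a + (turn c a y / T) • b + (turn a b y / T) • c := by
      apply Prod.ext
      · simp only [Prod.fst_add, Prod.smul_fst, smul_eq_mul]
        field_simp
        rw [hT]
        unfold turn
        ring
      · simp only [Prod.snd_add, Prod.smul_snd, smul_eq_mul]
        field_simp
        rw [hT]
        unfold turn
        ring
    have hsum := (convex_convexHull ℝ P).sum_mem (t := (Finset.univ : Finset (Fin 3)))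
      (w := ![turn b c y / T, turn c a y / T, turn a b y / T]) (z := ![a, b, c])
      (by
        intro i _
        fin_cases i
        · show 0 ≤ turn b c y / T
          positivity
        · show 0 ≤ turn c a y / T
          positivity
        · show 0 ≤ turn a b y / T
          positivity)
      (by
        rw [Fin.sum_univ_three]
        show turn b c y / T + turn c a y / T + turn a b y / T = 1
        rw [← add_div, ← add_div, div_eq_one_iff_eq hT0.ne', hT]
        ring)
      (by
        intro i _
        fin_cases i
        · exact subset_convexHull ℝ P ha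
        · exact subset_convexHull ℝ P hb
        · exact subset_convexHull ℝ P hc)
    rw [Fin.sum_univ_three] at hsum
    rw [e]
    exact hsum
  · have o1 : IsOpen {y : Pt | 0 < turn a b y} := isOpen_lt continuous_const (continuous_turn a b)
    have o2 : IsOpen {y : Pt | 0 < turn b c y} := isOpen_lt continuous_const (continuous_turn b c)
    have o3 : IsOpen {y : Pt | 0 < turn c a y} := isOpen_lt continuous_const (continuous_turn c a)
    exact o1.inter (o2.inter o3)

theorem not_collinear (P : Set Pt) (a b c : Pt) (ha : a ∈ P) (hb : b ∈ P) (hc : c ∈ P)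
    (h : turn a b c ≠ 0) : ¬ Collinear ℝ P := by
  intro hcol
  rw [collinear_iff_of_mem ha] at hcol
  obtain ⟨v, hv⟩ := hcol
  obtain ⟨r, hr⟩ := hv b hb
  obtain ⟨s, hs⟩ := hv c hc
  apply h
  rw [vadd_eq_add] at hr hs
  rw [hr, hs]
  unfold turn
  simp only [Prod.fst_add, Prod.snd_add, Prod.smul_fst, Prod.smul_snd, smul_eq_mul]
  ring

end Pool.Agent.H110.Refl.G3
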