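import Pool.Agent.H110.Refl.Base

namespace Pool.Agent.H110.Refl.G6

open Pool.Agent.H110.Refl

theorem Cyc_mod {Q : List (ℤ × ℤ)} {α : ℕ → ℕ} (h : Cyc Q α) (i : ℕ) :
    α (i % Q.length) = α i := by
  have hp : ∀ k i : ℕ, α (i + Q.length * k) = α i := by
    intro k
    induction k with
    | zero => intro i; rw [Nat.mul_zero, Nat.add_zero]
    | succ k ih => intro i; rw [Nat.mul_succ, ← Nat.add_assoc, h.per, ih]
  have h1 := hp (i / Q.length) (i % Q.length)
  rw [Nat.mod_add_div] at h1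
  exact h1.symm

theorem Cyc_modEq {Q : List (ℤ × ℤ)} {α : ℕ → ℕ} (h : Cyc Q α) {i j : ℕ}
    (hij : i ≡ j [MOD Q.length]) : α i = α j := by
  rw [← Cyc_mod h i, ← Cyc_mod h j]
  rw [Nat.ModEq] at hij
  rw [hij]

theorem mul_pred_modEq {n : ℕ} (hn : 1 ≤ n) {i j : ℕ} (h : (n - 1) * i ≡ (n - 1) * j [MOD n]) :
    i ≡ j [MOD n] := by
  obtain ⟨m, rfl⟩ : ∃ m, n = m + 1 := ⟨n - 1, by omega⟩
  rw [Nat.add_sub_cancel] at h
  have h1 : m * i + (i + j) ≡ m * j + (i + j) [MOD (m + 1)] := h.add_right _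
  have h2 : m * i + (i + j) = j + (m + 1) * i := by ring
  have h3 : m * j + (i + j) = i + (m + 1) * j := by ring
  rw [h2, h3] at h1
  have h4 : j + (m + 1) * i ≡ j [MOD (m + 1)] := by
    rw [Nat.ModEq, Nat.add_mul_mod_self_left]
  have h5 : i + (m + 1) * j ≡ i [MOD (m + 1)] := by
    rw [Nat.ModEq, Nat.add_mul_mod_self_left]
  exact (h5.symm.trans h1.symm).trans h4

theorem rev_succ {Q : List (ℤ × ℤ)} {α : ℕ → ℕ} (h3 : 3 ≤ Q.length) (h : Cyc Q α) (i : ℕ) :
    α ((Q.length - 1) * (i + 1) + 1) = α ((Q.length - 1) * i) := by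
  have e : (Q.length - 1) * (i + 1) + 1 = (Q.length - 1) * i + Q.length := by
    rw [Nat.mul_add, Nat.mul_one]; omega
  rw [e, h.per]

theorem zturn_swap (a b c : ℤ × ℤ) : zturn b a c = -zturn a b c := by
  unfold zturn; ring

theorem zturn_rev (a b c : ℤ × ℤ) : zturn c b a = -zturn a b c := by
  unfold zturn; ring

theorem Cyc_rev {Q : List (ℤ × ℤ)} {α : ℕ → ℕ} (h3 : 3 ≤ Q.length) (h : Cyc Q α) :
    Cyc Q (fun i => α ((Q.length - 1) * i)) where
  per := by
    intro i
    show α ((Q.length - 1) * (i + Q.length)) = α ((Q.length - 1) * i)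
    apply Cyc_modEq h
    rw [Nat.mul_add, Nat.ModEq, Nat.mul_comm _ Q.length, Nat.add_mul_mod_self_left]
  lt := fun i => h.lt _
  inj := by
    intro i hi j hj hij
    have h0 : 0 < Q.length := by omega
    have hij' : α ((Q.length - 1) * i) = α ((Q.length - 1) * j) := hij
    rw [← Cyc_mod h, ← Cyc_mod h ((Q.length - 1) * j)] at hij'
    have h1 := h.inj _ (Nat.mod_lt _ h0) _ (Nat.mod_lt _ h0) hij'
    have h2 := mul_pred_modEq (by omega) h1
    rw [Nat.ModEq, Nat.mod_eq_of_lt hi, Nat.mod_eq_of_lt hj] at h2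
    exact h2
  ncr := by
    intro i j
    show α ((Q.length - 1) * i) ≠ α ((Q.length - 1) * j) →
      α ((Q.length - 1) * i) ≠ α ((Q.length - 1) * (j + 1)) →
      α ((Q.length - 1) * (i + 1)) ≠ α ((Q.length - 1) * j) →
      α ((Q.length - 1) * (i + 1)) ≠ α ((Q.length - 1) * (j + 1)) →
      ¬ (zturn (zv Q (α ((Q.length - 1) * i))) (zv Q (α ((Q.length - 1) * (i + 1))))
          (zv Q (α ((Q.length - 1) * j))) *
         zturn (zv Q (α ((Q.length - 1) * i))) (zv Q (α ((Q.length - 1) * (i + 1))))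
          (zv Q (α ((Q.length - 1) * (j + 1)))) < 0 ∧
         zturn (zv Q (α ((Q.length - 1) * j))) (zv Q (α ((Q.length - 1) * (j + 1))))
          (zv Q (α ((Q.length - 1) * i))) *
         zturn (zv Q (α ((Q.length - 1) * j))) (zv Q (α ((Q.length - 1) * (j + 1))))
          (zv Q (α ((Q.length - 1) * (i + 1)))) < 0)
    have ei := rev_succ h3 h i
    have ej := rev_succ h3 h j
    have key := h.ncr ((Q.length - 1) * (i + 1)) ((Q.length - 1) * (j + 1))
    rw [ei, ej] at key
    intro n1 n2 n3 n4 hh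
    apply key n4 n3 n2 n1
    obtain ⟨a1, a2⟩ := hh
    rw [zturn_swap (zv Q (α ((Q.length - 1) * (i + 1)))),
      zturn_swap (zv Q (α ((Q.length - 1) * (i + 1)))), neg_mul_neg] at a1
    rw [zturn_swap (zv Q (α ((Q.length - 1) * (j + 1)))),
      zturn_swap (zv Q (α ((Q.length - 1) * (j + 1)))), neg_mul_neg] at a2
    exact ⟨by rw [mul_comm]; exact a1, by rw [mul_comm]; exact a2⟩

theorem turn_toPt (a b c : ℤ × ℤ) : turn (toPt a) (toPt b) (toPt c) = (zturn a b c : ℝ) := by
  unfold turn toPt zturn; push_cast; ring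

theorem le_reflexCount
    (exists_cyc : ∀ (Q : List (ℤ × ℤ)), 3 ≤ Q.length → Q.Nodup → ∀ (v : ℕ → Pt),
      IsPolygonization (PS Q) v → ∃ α, Cyc Q α ∧ ∀ i, v i = vert Q (α i))
    (card_PS : ∀ (Q : List (ℤ × ℤ)), Q.Nodup → (PS Q).card = Q.length)
    (Q : List (ℤ × ℤ)) (h3 : 3 ≤ Q.length) (hn : Q.Nodup) (k : ℕ)
    (H : ∀ α, Cyc Q α → k ≤ ((Finset.range Q.length).filter fun i =>
      zturn (zv Q (α i)) (zv Q (α (i + 1))) (zv Q (α (i + 2))) < 0).card)
    (v : ℕ → Pt) (hv : IsPolygonization (PS Q) v) : k ≤ reflexCount (PS Q).card v := by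
  classical
  obtain ⟨α, hα, hva⟩ := exists_cyc Q h3 hn v hv
  have hc := card_PS Q hn
  have ht : ∀ i, turn (v i) (v (i + 1)) (v (i + 2)) =
      (zturn (zv Q (α i)) (zv Q (α (i + 1))) (zv Q (α (i + 2))) : ℝ) := by
    intro i
    rw [hva, hva, hva]
    exact turn_toPt _ _ _
  rw [hc]
  unfold reflexCount
  by_cases ha : 0 < area2 Q.length v
  · refine (H α hα).trans (Finset.card_le_card ?_)
    intro i hi
    rw [Finset.mem_filter] at hi ⊢
    refine ⟨hi.1, ?_⟩
    unfold IsReflex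
    rw [if_pos ha, ht]
    exact_mod_cast hi.2
  · refine (H _ (Cyc_rev h3 hα)).trans ?_
    have h0 : 0 < Q.length := by omega
    apply Finset.card_le_card_of_injOn (fun i => ((Q.length - 1) * (i + 2)) % Q.length)
    · intro i hi
      rw [Finset.mem_coe, Finset.mem_filter] at hi
      rw [Finset.mem_coe, Finset.mem_filter]
      refine ⟨Finset.mem_range.2 (Nat.mod_lt _ h0), ?_⟩
      unfold IsReflex
      rw [if_neg ha, ht]
      have e0 : α (((Q.length - 1) * (i + 2)) % Q.length) = α ((Q.length - 1) * (i + 2)) :=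
        Cyc_mod hα _
      have e1 : α (((Q.length - 1) * (i + 2)) % Q.length + 1) = α ((Q.length - 1) * (i + 1)) := by
        rw [← rev_succ h3 hα (i + 1)]
        apply Cyc_modEq hα
        exact (Nat.mod_modEq _ _).add_right 1
      have e2 : α (((Q.length - 1) * (i + 2)) % Q.length + 2) = α ((Q.length - 1) * i) := by
        rw [← rev_succ h3 hα i]
        have : α ((Q.length - 1) * (i + 1) + 1) = α ((Q.length - 1) * (i + 2) + 2) := by
          have e : (Q.length - 1) * (i + 2) + 2 = ((Q.length - 1) * (i + 1) + 1) + Q.length := by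
            have : (Q.length - 1) * (i + 2) = (Q.length - 1) * (i + 1) + (Q.length - 1) := by ring
            rw [this]; omega
          rw [e, hα.per]
        rw [this]
        apply Cyc_modEq hα
        exact (Nat.mod_modEq _ _).add_right 2
      rw [e0, e1, e2]
      have h2 : zturn (zv Q (α ((Q.length - 1) * i))) (zv Q (α ((Q.length - 1) * (i + 1))))
          (zv Q (α ((Q.length - 1) * (i + 2)))) < 0 := hi.2
      rw [zturn_rev] at h2
      have h4 : 0 < zturn (zv Q (α ((Q.length - 1) * (i + 2))))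
          (zv Q (α ((Q.length - 1) * (i + 1)))) (zv Q (α ((Q.length - 1) * i))) := by linarith
      exact_mod_cast h4
    · intro i hi j hj hij
      rw [Finset.mem_coe, Finset.mem_filter, Finset.mem_range] at hi hj
      have h1 : (Q.length - 1) * (i + 2) ≡ (Q.length - 1) * (j + 2) [MOD Q.length] := hij
      have h2 := (mul_pred_modEq (by omega) h1).add_right_cancel' 2
      rw [Nat.ModEq, Nat.mod_eq_of_lt hi.1, Nat.mod_eq_of_lt hj.1] at h2
      exact h2

end Pool.Agent.H110.Refl.G6
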