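import Pool.Agent.H110.Refl.Tab
import Pool.Agent.H110.Refl.Snd4
import Pool.Agent.H110.Refl.G6
import Pool.Agent.H110.Refl.G5
import Pool.Agent.H110.Refl.G4
import Pool.Agent.H110.Refl.G3

namespace Pool.Agent.H110.Refl

theorem bi_eq (c x y : Bool) : bi c x y = if c = true then x else y := by
  cases c <;> rfl

theorem bi_true_iff (c x y : Bool) : bi c x y = true ↔ (c = true ∧ x = true) ∨ (c = false ∧ y = true) := by
  cases c <;> simp [bi]

theorem allB_spec {n : ℕ} {p : ℕ → Bool} (h : allB n p = true) : ∀ k < n, p k = true := by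
  induction n with
  | zero => intro k hk; omega
  | succ n ih =>
    have h1 : bi (p n) (allB n p) false = true := h
    rw [bi_true_iff] at h1
    rcases h1 with ⟨h1, h2⟩ | ⟨-, h2⟩
    · intro k hk
      rcases Nat.lt_or_ge k n with h3 | h3
      · exact ih h2 k h3
      · rw [show k = n by omega]; exact h1
    · exact absurd h2 (by simp)

theorem bit_one (a i : ℕ) : Nat.beq (bit a i) 1 = true ↔ a.testBit i = true := by
  rw [bit_eq, Nat.beq_eq]
  cases a.testBit i <;> simp

theorem bit_one' (a i : ℕ) : bit a i = 1 ↔ a.testBit i = true := by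
  rw [bit_eq]
  cases a.testBit i <;> simp

theorem ob_iff (C a b c : ℕ) : ob C a b c = true ↔ (lft C a b).testBit c = true := bit_one _ _

theorem beq_iff (a b : ℕ) : Nat.beq a b = true ↔ a = b := by
  rw [Nat.beq_eq]

theorem crsB_spec {w x y z : ℕ} (h : crsB w x y z = true) : w ≠ y ∧ w ≠ z ∧ x ≠ y ∧ x ≠ z ∧
    ob CH w x y ≠ ob CH w x z ∧ ob CH y z w ≠ ob CH y z x := by
  unfold crsB at h
  simp only [bi_eq] at h
  by_cases h1 : w = y
  · rw [if_pos ((beq_iff _ _).2 h1)] at h; exact absurd h (by simp)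
  by_cases h2 : w = z
  · rw [if_neg (by rw [beq_iff]; exact h1), if_pos ((beq_iff _ _).2 h2)] at h; exact absurd h (by simp)
  by_cases h3 : x = y
  · rw [if_neg (by rw [beq_iff]; exact h1), if_neg (by rw [beq_iff]; exact h2), if_pos ((beq_iff _ _).2 h3)] at h
    exact absurd h (by simp)
  by_cases h4 : x = z
  · rw [if_neg (by rw [beq_iff]; exact h1), if_neg (by rw [beq_iff]; exact h2), if_neg (by rw [beq_iff]; exact h3),
      if_pos ((beq_iff _ _).2 h4)] at h
    exact absurd h (by simp)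
  rw [if_neg (by rw [beq_iff]; exact h1), if_neg (by rw [beq_iff]; exact h2), if_neg (by rw [beq_iff]; exact h3),
      if_neg (by rw [beq_iff]; exact h4)] at h
  refine ⟨h1, h2, h3, h4, ?_⟩
  revert h
  generalize ob CH w x y = p
  generalize ob CH w x z = q
  generalize ob CH y z w = r
  generalize ob CH y z x = t
  revert p q r t
  decide

theorem prod_neg {p q : ℤ} {b c : Bool} (h1 : (0 < p ∧ b = true) ∨ (p < 0 ∧ b = false))
    (h2 : (0 < q ∧ c = true) ∨ (q < 0 ∧ c = false)) (h : b ≠ c) : p * q < 0 := by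
  rcases h1 with ⟨h1, h3⟩ | ⟨h1, h3⟩ <;> rcases h2 with ⟨h2, h4⟩ | ⟨h2, h4⟩
  · exact absurd (h3.trans h4.symm) h
  · exact mul_neg_of_pos_of_neg h1 h2
  · exact mul_neg_of_neg_of_pos h1 h2
  · exact absurd (h3.trans h4.symm) h

theorem ori' (a b c : ℕ) (ha : a < 18) (hb : b < 18) (hc : c < 18) (h1 : a ≠ b) (h2 : b ≠ c) (h3 : a ≠ c) :
    (0 < zturn (zv PL a) (zv PL b) (zv PL c) ∧ ob CH a b c = true) ∨
    (zturn (zv PL a) (zv PL b) (zv PL c) < 0 ∧ ob CH a b c = false) := by
  rcases ori a b c ha hb hc h1 h2 h3 with h | h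
  · exact Or.inl ⟨h.1, h.2.1⟩
  · exact Or.inr ⟨h.1, h.2.1⟩

/-- edges of a tour do not cross -/
theorem not_crsB {α : ℕ → ℕ} (h : Cyc PL α) (i j : ℕ) (hi : α i ≠ α (i + 1)) (hj : α j ≠ α (j + 1)) :
    crsB (α i) (α (i + 1)) (α j) (α (j + 1)) = false := by
  rw [Bool.eq_false_iff]
  intro hc
  obtain ⟨h1, h2, h3, h4, h5, h6⟩ := crsB_spec hc
  have hl : ∀ i, α i < 18 := fun i => by have := h.lt i; rwa [PL_length] at this
  apply h.ncr i j h1 h2 h3 h4
  constructor
  · exact prod_neg (ori' _ _ _ (hl _) (hl _) (hl _) hi h3 h1) (ori' _ _ _ (hl _) (hl _) (hl _) hi h4 h2) h5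
  · exact prod_neg (ori' _ _ _ (hl _) (hl _) (hl _) hj h2.symm h1.symm)
      (ori' _ _ _ (hl _) (hl _) (hl _) hj h4.symm h3.symm) h6

theorem msk_spec (w x y z : ℕ) (hw : w < 18) (hx : x < 18) (hy : y < 18) (hz : z < 18) (h1 : w ≠ x) (h2 : y ≠ z)
    (h3 : y ≠ w) (h4 : z ≠ w) (h5 : crsB w x y z = false) : (msk w x).testBit (64 + 21 * y + z) = true := by
  have h := allB_spec (allB_spec (allB_spec (allB_spec msk_chk w hw) x hx) y hy) z hz
  simp only [bi_true_iff, beq_iff, bit_one', add_def, mul_def] at h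
  rcases h with h | h
  · exact h.1
  · rcases h with ⟨-, h | h⟩
    · exact absurd h.1 h1
    · rcases h with ⟨-, h | h⟩
      · exact absurd h.1 h2
      · rcases h with ⟨-, h | h⟩
        · exact absurd h.1 h3
        · rcases h with ⟨-, h | h⟩
          · exact absurd h.1 h4
          · rw [h5] at h
            exact absurd h.2 (by simp)

/-- the same with the second edge reversed -/
theorem not_crsB' {α : ℕ → ℕ} (h : Cyc PL α) (i j : ℕ) (hi : α i ≠ α (i + 1)) (hj : α j ≠ α (j + 1)) :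
    crsB (α i) (α (i + 1)) (α (j + 1)) (α j) = false := by
  rw [Bool.eq_false_iff]
  intro hc
  obtain ⟨h1, h2, h3, h4, h5, h6⟩ := crsB_spec hc
  have hl : ∀ i, α i < 18 := fun i => by have := h.lt i; rwa [PL_length] at this
  apply h.ncr i j h2 h1 h4 h3
  constructor
  · exact prod_neg (ori' _ _ _ (hl _) (hl _) (hl _) hi h4 h2) (ori' _ _ _ (hl _) (hl _) (hl _) hi h3 h1) h5.symm
  · have := prod_neg (ori' _ _ _ (hl _) (hl _) (hl _) hj.symm h2.symm h1.symm)
      (ori' _ _ _ (hl _) (hl _) (hl _) hj.symm h4.symm h3.symm) h6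
    have e1 : ∀ p q r : ℤ × ℤ, zturn p q r = - zturn q p r := by
      intro p q r; unfold zturn; ring
    rw [e1 (zv PL (α j)) _ (zv PL (α i)), e1 (zv PL (α j)) _ (zv PL (α (i + 1))), neg_mul_neg]
    exact this

theorem rootA_spec {D f a : ℕ} (h : rootA D 18 f a = true) : a < 2 ^ 463 ∧ (∀ y < 19, a.testBit (84 + 21 * y) = false) ∧
    ∀ y < 18, ∀ z < 18, y ≠ z → (y ≠ Sv → z ≠ Sv → crsB Sv f y z = false → a.testBit (64 + 21 * y + z) = true) ∧
      (y = Sv → z ≠ f → ob D z Sv f = true → a.testBit (64 + 21 * y + z) = true) ∧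
      (z = Sv → y ≠ Sv → y ≠ f → ob D y Sv f = true → a.testBit (64 + 21 * y + z) = true) := by
  unfold rootA at h
  rw [bi_true_iff] at h
  rcases h with ⟨h1, h⟩ | ⟨-, h⟩
  swap
  · exact absurd h (by simp)
  rw [bi_true_iff] at h
  rcases h with ⟨h2, h⟩ | ⟨-, h⟩
  swap
  · exact absurd h (by simp)
  refine ⟨?_, ?_, ?_⟩
  · rw [Nat.ble_eq] at h1
    exact h1
  · intro y hy
    have h3 := allB_spec h2 y hy
    rw [beq_iff, bit_eq] at h3
    rw [add_def, mul_def] at h3
    cases hb : a.testBit (84 + 21 * y)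
    · rfl
    · rw [hb] at h3
      exact absurd h3 (by simp)
  · intro y hy z hz hyz
    have h3 := allB_spec (allB_spec h y hy) z hz
    simp only [bi_true_iff, beq_iff, bit_one', add_def, mul_def] at h3
    refine ⟨?_, ?_, ?_⟩
    · intro g1 g2 g3
      rcases h3 with h3 | ⟨-, h3 | ⟨-, h3 | ⟨-, h3 | ⟨-, h3⟩⟩⟩⟩
      · exact h3.1
      · exact absurd h3.1 hyz
      · exact absurd h3.1 g1
      · exact absurd h3.1 g2
      · rw [g3] at h3
        exact absurd h3 (by simp)
    · intro g1 g2 g3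
      rcases h3 with h3 | ⟨-, h3 | ⟨-, h3 | ⟨h4, -⟩⟩⟩
      · exact h3.1
      · exact absurd h3.1 hyz
      · rcases h3 with ⟨-, h3 | ⟨-, h3 | h3⟩⟩
        · exact absurd h3.1 g2
        · exact absurd h3.2 (by simp)
        · rw [g3] at h3
          exact absurd h3.1 (by simp)
      · rw [Bool.eq_false_iff] at h4
        exact absurd ((beq_iff _ _).2 g1) h4
    · intro g1 g0 g2 g3
      rcases h3 with h3 | ⟨-, h3 | ⟨-, h3 | ⟨-, h3 | ⟨h4, -⟩⟩⟩⟩
      · exact h3.1
      · exact absurd h3.1 hyz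
      · exact absurd h3.1 g0
      · rcases h3 with ⟨-, h3 | ⟨-, h3 | h3⟩⟩
        · exact absurd h3.1 g2
        · exact absurd h3.2 (by simp)
        · rw [g3] at h3
          exact absurd h3.1 (by simp)
      · rw [Bool.eq_false_iff] at h4
        exact absurd ((beq_iff _ _).2 g1) h4

theorem gsn_eq (n f : ℕ) : gsn n f = gs ((Finset.range n).filter fun y => y ≠ Sv ∧ y ≠ f) := by
  induction n with
  | zero => simp [gsn, gs]
  | succ n ih =>
    have h1 : gsn (n + 1) f = Bool.rec (Bool.rec (Nat.add (gsn n f) (kx n)) (gsn n f) (Nat.beq n f)) (gsn n f) (Nat.beq n Sv) := rfl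
    rw [h1, Finset.range_add_one, Finset.filter_insert]
    cases h2 : Nat.beq n Sv
    · have h2' : n ≠ Sv := by
        intro h
        rw [(beq_iff _ _).2 h] at h2
        exact absurd h2 (by simp)
      cases h3 : Nat.beq n f
      · have h3' : n ≠ f := by
          intro h
          rw [(beq_iff _ _).2 h] at h3
          exact absurd h3 (by simp)
        rw [if_pos ⟨h2', h3'⟩]
        have h4 : n ∉ (Finset.range n).filter fun y => y ≠ Sv ∧ y ≠ f := by simp
        show Nat.add (gsn n f) (kx n) = gs (insert n ((Finset.range n).filter fun y => y ≠ Sv ∧ y ≠ f))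
        unfold gs at ih ⊢
        rw [Finset.sum_insert h4, ← ih, kx, add_def, add_def, shl_def, shl_def, add_def, mul_def, Nat.one_shiftLeft,
          Nat.one_shiftLeft]
        omega
      · have h3' : n = f := (beq_iff _ _).1 h3
        rw [if_neg (fun h => h.2 h3')]
        exact ih
    · have h2' : n = Sv := (beq_iff _ _).1 h2
      rw [if_neg (fun h => h.1 h2')]
      exact ih

end Pool.Agent.H110.Refl
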