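import Pool.Agent.H110.Refl.Cmb

namespace Pool.Agent.H110.Refl

/-- the search below the first vertex `f` is done -/
def OK (C D e f1 f2 b f : ℕ) : Prop := ∃ a g, rootChk C D 18 f a g b = true ∧
  ∀ x < 18, a.testBit (64 + 21 * f + x) = true → ∃ c, c < 2 ^ 19 ∧ c.testBit x = true ∧ run C e f1 f2 f a g c = true

def cov (f a : ℕ) (l : List ℕ) : Bool :=
  (l.all fun c => decide (c < 2 ^ 19)) &&
    (List.range 18).all fun x => !(a.testBit (64 + 21 * f + x)) || l.any fun c => c.testBit x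

theorem ok_of_list (C D e f1 f2 b f a g : ℕ) (l : List ℕ) (h1 : rootChk C D 18 f a g b = true)
    (h2 : cov f a l = true) (h3 : ∀ c ∈ l, run C e f1 f2 f a g c = true) : OK C D e f1 f2 b f := by
  refine ⟨a, g, h1, ?_⟩
  intro x hx hax
  unfold cov at h2
  rw [Bool.and_eq_true, List.all_eq_true, List.all_eq_true] at h2
  have h4 := h2.2 x (List.mem_range.2 hx)
  rw [hax, Bool.not_true, Bool.false_or, List.any_eq_true] at h4
  obtain ⟨c, hc, hcx⟩ := h4
  exact ⟨c, by simpa using h2.1 c hc, hcx, h3 c hc⟩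

theorem Cyc.lt18 {α : ℕ → ℕ} (h : Cyc PL α) (i : ℕ) : α i < 18 := by
  have := h.lt i
  rwa [PL_length] at this

theorem Cyc.inj18 {α : ℕ → ℕ} (h : Cyc PL α) (i j : ℕ) (hi : i < 18) (hj : j < 18) (hij : i ≠ j) : α i ≠ α j := by
  intro h1
  exact hij (h.inj i (by rw [PL_length]; exact hi) j (by rw [PL_length]; exact hj) h1)

theorem Cyc.per18 {α : ℕ → ℕ} (h : Cyc PL α) (i : ℕ) : α (i + 18) = α i := by
  have := h.per i
  rwa [PL_length] at this

theorem Cyc.ne_succ {α : ℕ → ℕ} (h : Cyc PL α) (i : ℕ) (hi : i < 18) : α i ≠ α (i + 1) := by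
  rcases Nat.lt_or_ge (i + 1) 18 with h1 | h1
  · exact h.inj18 _ _ hi h1 (by omega)
  · rw [show i + 1 = 0 + 18 by omega, h.per18]
    exact h.inj18 _ _ hi (by omega) (by omega)

theorem Cyc.surj {α : ℕ → ℕ} (h : Cyc PL α) (y : ℕ) (hy : y < 18) : ∃ i < 18, α i = y := by
  have h1 : (Finset.range 18).image α = Finset.range 18 := by
    apply Finset.eq_of_subset_of_card_le
    · intro z hz
      obtain ⟨i, -, rfl⟩ := Finset.mem_image.1 hz
      exact Finset.mem_range.2 (h.lt18 i)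
    · rw [Finset.card_image_of_injOn]
      intro i hi j hj hij
      by_contra hne
      exact h.inj18 i j (by simpa using hi) (by simpa using hj) hne hij
  have h2 : y ∈ (Finset.range 18).image α := by rw [h1]; exact Finset.mem_range.2 hy
  obtain ⟨i, hi, h3⟩ := Finset.mem_image.1 h2
  exact ⟨i, Finset.mem_range.1 hi, h3⟩

theorem Cyc.tour {α : ℕ → ℕ} (h : Cyc PL α) (h0 : α 0 = Sv) : Tour α 18 := by
  refine ⟨fun i => by have := h.lt18 i; omega, ?_, h0, ?_, Ssh_eq, ?_⟩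
  · intro i hi j hj hij
    by_contra hne
    exact h.inj18 i j hi hj hne hij
  · have := h.per18 0
    rw [← h0, ← this]
  · intro i j hi hij hj
    have g1 : α i ≠ α (i + 1) := h.ne_succ i (by omega)
    have g2 : α j ≠ α (j + 1) := h.ne_succ j hj
    have g3 : α j ≠ α i := h.inj18 _ _ hj (by omega) (by omega)
    have g4 : α (j + 1) ≠ α i := by
      rcases Nat.lt_or_ge (j + 1) 18 with h1 | h1
      · exact h.inj18 _ _ h1 (by omega) (by omega)
      · rw [show j + 1 = 0 + 18 by omega, h.per18]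
        exact h.inj18 _ _ (by omega) (by omega) (by omega)
    constructor
    · exact msk_spec _ _ _ _ (h.lt18 _) (h.lt18 _) (h.lt18 _) (h.lt18 _) g1 g2 g3 g4 (not_crsB h i j g1 g2)
    · exact msk_spec _ _ _ _ (h.lt18 _) (h.lt18 _) (h.lt18 _) (h.lt18 _) g1 g2.symm g4 g3 (not_crsB' h i j g1 g2)

theorem Cyc.root_inv {α : ℕ → ℕ} (h : Cyc PL α) (h0 : α 0 = Sv) (D a : ℕ) (hr : rootA D 18 (α 1) a = true)
    (hD : ob D (α 17) Sv (α 1) = true) : Inv α 18 1 a := by
  obtain ⟨r1, r2, r3⟩ := rootA_spec hr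
  refine ⟨r1, r2, ?_⟩
  intro j hj1 hj2
  have g1 : α 0 ≠ α (0 + 1) := h.ne_succ 0 (by omega)
  have g2 : α j ≠ α (j + 1) := h.ne_succ j hj2
  have gs0 : α j ≠ Sv := by rw [← h0]; exact h.inj18 _ _ hj2 (by omega) (by omega)
  rcases Nat.lt_or_ge (j + 1) 18 with h1 | h1
  · have gs1 : α (j + 1) ≠ Sv := by rw [← h0]; exact h.inj18 _ _ h1 (by omega) (by omega)
    have c1 := not_crsB h 0 j g1 g2
    have c2 := not_crsB' h 0 j g1 g2
    rw [h0] at c1 c2
    exact ⟨(r3 _ (h.lt18 _) _ (h.lt18 _) g2).1 gs0 gs1 c1, (r3 _ (h.lt18 _) _ (h.lt18 _) g2.symm).1 gs1 gs0 c2⟩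
  · have hj : j = 17 := by omega
    subst hj
    have e1 : α (17 + 1) = Sv := by
      rw [show 17 + 1 = 0 + 18 from rfl, h.per18, h0]
    have g5 : α 17 ≠ α 1 := h.inj18 _ _ (by omega) (by omega) (by omega)
    rw [e1] at g2 ⊢
    have hS := Sv_lt
    exact ⟨(r3 _ (h.lt18 _) _ hS g2).2.2 rfl gs0 g5 hD, (r3 _ hS _ (h.lt18 _) g2.symm).2.1 rfl g5 hD⟩

theorem Cyc.U1 {α : ℕ → ℕ} (h : Cyc PL α) (h0 : α 0 = Sv) :
    U α 18 1 = (Finset.range 18).filter fun y => y ≠ Sv ∧ y ≠ α 1 := by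
  ext y
  rw [mem_U, Finset.mem_filter, Finset.mem_range]
  constructor
  · rintro ⟨j, h1, h2, rfl⟩
    refine ⟨h.lt18 _, ?_, h.inj18 _ _ h2 (by omega) (by omega)⟩
    rw [← h0]
    exact h.inj18 _ _ h2 (by omega) (by omega)
  · rintro ⟨h1, h2, h3⟩
    obtain ⟨j, hj, rfl⟩ := h.surj y h1
    refine ⟨j, ?_, hj, rfl⟩
    rcases Nat.lt_or_ge 1 j with h4 | h4
    · exact h4
    · exfalso
      rcases Nat.lt_or_ge 0 j with h5 | h5
      · exact h3 (by rw [show j = 1 by omega])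
      · exact h2 (by rw [show j = 0 by omega, h0])

theorem contra (C D e f1 f2 b m : ℕ) (hm : 1 + f1 = m) (hm2 : m + f2 = 15) (hbe : b + e < 16)
    (hT : ∀ f < 18, f ≠ Sv → OK C D e f1 f2 b f) (α : ℕ → ℕ) (h : Cyc PL α) (h0 : α 0 = Sv)
    (hD : ob D (α 17) Sv (α 1) = true) (h1 : ∑ j ∈ Finset.Ico 0 m, rr C α j ≤ b)
    (h2 : ∑ j ∈ Finset.Ico 0 17, rr C α j ≤ b + e) : False := by
  have hT1 : Tour α 18 := h.tour h0
  have hf : α 1 ≠ Sv := by rw [← h0]; exact h.inj18 _ _ (by omega) (by omega) (by omega)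
  obtain ⟨a, g, hr, hx⟩ := hT (α 1) (h.lt18 _) hf
  unfold rootChk at hr
  rw [bi_true_iff] at hr
  rcases hr with ⟨hr, hg⟩ | ⟨-, hr⟩
  swap
  · exact absurd hr (by simp)
  rw [beq_iff] at hg
  have hI := h.root_inv h0 D a hr hD
  obtain ⟨c, hc, hcx, hrun⟩ := hx (α 2) (h.lt18 _) (hI.ed 1 (le_refl _) (by omega)).1
  have hUlt := U_lt hT1 1
  have hgU : gsn 18 (α 1) = gs (U α 18 1) := by rw [gsn_eq, h.U1 h0]
  set L := Nat.land (Nat.land (Nat.shiftRight a (Nat.add 64 (Nat.mul 21 (α 1)))) (lft C Sv (α 1))) (gs (U α 18 1)) with hL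
  have hgG : g = G (U α 18 1) b L := by
    rw [hg, hgU]
    unfold gnew G
    rw [add_def, add_def, shl_def, shl_def, Nat.shiftLeft_eq, Nat.shiftLeft_eq]
  have hS : St C α (15 + 3) m e 0 a b L := by
    refine ⟨hI, hbe, ?_, ?_, h1, h2⟩
    · rw [hL, land_def, land_def]
      exact lt_of_le_of_lt Nat.and_le_left (lt_of_le_of_lt Nat.and_le_right (lft_lt _ _ _))
    · intro h3
      rw [hL, land_def, land_def, shr_def, add_def, mul_def, Nat.testBit_and, Nat.testBit_and, Nat.testBit_shiftRight]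
      have e1 := (hI.ed 1 (le_refl _) (by omega)).1
      have e2 : (lft C (α 0) (α (0 + 1))).testBit (α (0 + 2)) = true := by
        unfold rr at h3
        split at h3
        · assumption
        · exact absurd h3 (by omega)
      have e3 : (gs (U α 18 1)).testBit (α 2) = true := by
        have h5 := (vs_testBit (U α 18 1) (α 2)).2 (mem_U.2 ⟨2, by omega, by omega, rfl⟩)
        rw [← G_unv (U α 18 1) 0 0 hUlt, land_def, Nat.testBit_and, Bool.and_eq_true] at h5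
        simpa [G] using h5.1
      rw [h0] at e2
      rw [show (1 : ℕ) + 1 = 2 from rfl] at e1
      rw [show (0 : ℕ) + 1 = 1 from rfl] at e2
      rw [show (0 : ℕ) + 2 = 2 from rfl] at e2
      rw [show (0 : ℕ) + 2 = 2 from rfl, e1, e2, e3]
      rfl
  have := run_sound C α 15 m e f1 f2 hT1 hm hm2 a b L c hS hc hcx
  rw [← hgG, hrun] at this
  exact absurd this (by simp)

end Pool.Agent.H110.Refl
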