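import Mathlib

namespace Pool.Agent.H110.Refl

/-- The plane. -/
abbrev Pt := ℝ × ℝ

/-- Twice the signed area of the triangle `a b c`; it is positive if and only if the walk
`a, b, c` makes a left turn at `b`, and negative if and only if it makes a right turn. -/
def turn (a b c : Pt) : ℝ := (b.1 - a.1) * (c.2 - a.2) - (b.2 - a.2) * (c.1 - a.1)

/-- `v 0, …, v (n-1)` (extended periodically to all indices) are the vertices, in cyclic order, of a
simple closed polygon: the `n` half-open edges `[v i, v (i+1))` are pairwise disjoint. -/
structure IsSimplePolygon (n : ℕ) (v : ℕ → Pt) : Prop where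
  periodic : ∀ i, v (i + n) = v i
  simple : ∀ i < n, ∀ j < n, i ≠ j →
    Disjoint (segment ℝ (v i) (v (i + 1)) \ {v (i + 1)}) (segment ℝ (v j) (v (j + 1)) \ {v (j + 1)})

/-- `v` is a polygonization of the finite set `P`: a simple polygon with `P.card` vertices whose
vertex set is exactly `P`. -/
def IsPolygonization (P : Finset Pt) (v : ℕ → Pt) : Prop :=
  IsSimplePolygon P.card v ∧ (Finset.range P.card).image v = P

/-- Twice the signed area (shoelace formula) of the closed polygon `v 0, …, v (n-1)`; a simple
polygon is traversed counterclockwise if and only if it is positive. -/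
def area2 (n : ℕ) (v : ℕ → Pt) : ℝ :=
  ∑ i ∈ Finset.range n, ((v i).1 * (v (i + 1)).2 - (v (i + 1)).1 * (v i).2)

/-- The vertex `v (i+1)` is reflex (interior angle greater than `π`): the polygon is traversed
counterclockwise and turns right there, or it is traversed clockwise and turns left there. -/
def IsReflex (n : ℕ) (v : ℕ → Pt) (i : ℕ) : Prop :=
  if 0 < area2 n v then turn (v i) (v (i + 1)) (v (i + 2)) < 0
  else 0 < turn (v i) (v (i + 1)) (v (i + 2))

open Classical in
/-- Number of reflex vertices of the polygon. -/
noncomputable def reflexCount (n : ℕ) (v : ℕ → Pt) : ℕ :=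
  ((Finset.range n).filter (IsReflex n v)).card

/-- Reflexivity: least number of reflex vertices of a polygonization of `P`. -/
noncomputable def rho (P : Finset Pt) : ℕ :=
  sInf {k | ∃ v, IsPolygonization P v ∧ reflexCount P.card v = k}

end Pool.Agent.H110.Refl
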