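import Pool.Agent.H110.Refl.Fin1

namespace Pool.Agent.H110.Refl

theorem five_le_rho : 5 ≤ rho (PS PL) := by
  have h3 : 3 ≤ PL.length := by rw [PL_length]; omega
  have hne : {k | ∃ v, IsPolygonization (PS PL) v ∧ reflexCount (PS PL).card v = k}.Nonempty :=
    ⟨_, vert PL, G4.isPolygonization_of_chk PL h3 PL_nodup PL_chk, rfl⟩
  obtain ⟨v, hv, hk⟩ := Nat.sInf_mem hne
  have h5 := G6.le_reflexCount (fun Q h1 h2 v h3 => G5.exists_cyc Q h1 h2 v h3) (fun Q h => G4.card_PS Q h) PL h3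
    PL_nodup 5 (fun α h => five h) v hv
  unfold rho
  rw [← hk]
  exact h5

theorem PS_QL : PS QL = PS PL ∪ PS SL := by
  ext x
  rw [Finset.mem_union, G4.mem_PS, G4.mem_PS, G4.mem_PS]
  constructor
  · rintro ⟨q, hq, rfl⟩
    rcases (QL_mem q).1 hq with h | h
    · exact Or.inl ⟨q, h, rfl⟩
    · exact Or.inr ⟨q, h, rfl⟩
  · rintro (⟨q, hq, rfl⟩ | ⟨q, hq, rfl⟩)
    · exact ⟨q, (QL_mem q).2 (Or.inl hq), rfl⟩
    · exact ⟨q, (QL_mem q).2 (Or.inr hq), rfl⟩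

theorem poly_QL : IsPolygonization (PS PL ∪ PS SL) (vert QL) ∧ reflexCount (PS PL ∪ PS SL).card (vert QL) = 2 := by
  have h3 : 3 ≤ QL.length := by rw [QL_length]; omega
  rw [← PS_QL]
  refine ⟨G4.isPolygonization_of_chk QL h3 QL_nodup QL_chk, ?_⟩
  rw [G4.reflexCount_eq QL h3 QL_nodup QL_area, QL_ref]

theorem zv_mem (i : ℕ) : zv PL i ∈ PL := by
  unfold zv
  rw [List.getD_eq_getElem _ _ (Nat.mod_lt _ (by rw [PL_length]; omega))]
  exact List.getElem_mem _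

end Pool.Agent.H110.Refl
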