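import Pool.Agent.H110.Refl.AlgB

/-! Part of the exhaustive search, see `Pool.Agent.H110.Refl.AlgB`. -/

namespace Pool.Agent.H110.Refl

theorem kA_2_0 : run CH 2 8 6 2
  0x3fffe2ffff1bfff8efffc7bffe3efff1fbff8feff87fbfc3fefe1ffbf0ffef87ffbc3ffee1fffb0fffe87fffa3f8021d5372f2af1b7ee1
  0x20000100000800004000020000100000800004000020000100000800004000020000100000800000000020000000000000003f80223fffa
  0x2 = true := by decide +kernel

theorem kB_15_0 : run CHm 3 7 7 15
  0x3a0002fff01bfff0efff83bffe3effe0fbff87effc3fbfe1feff0ffbf87fefc3ffbe1ffef07ffb83ffec1fffa02ffe1db367b6fd9d17f6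
  0x200001000000000040000200001000008000040000200001000008000040000200001000008000040000200000000000000002ffe137ffe
  0x37ffe = true := by decide +kernel

theorem kC_12_0 : run CH 2 7 7 12
  0x3fffe2ffff1bfff8efffc7bffe3effe1fbff8feffc7fbfe3feff1ffbf8ffefc7ffbe3ffef1fffb8fffec7fffa3effe1d5612f3031b3961
  0x20000100000800004000020000000000800004000020000100000800004000020000100000800004000020000000000000000000013effe
  0x3effe = true := by decide +kernel

theorem kA_9_0 : run CH 2 8 6 9
  0x3fd0e2fe971bf4b8efa5c7bd2e3ee971fb4b8fea5c7fbfc002781ff03800ce0006b01ff68001b80ffa0c7fd0a3fc8611958375ec658eea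
  0x20000100000800004000020000100000800004000000000100000800004000020000100000800004000020000000000000003fc8623fdfe
  0x3fdfe = true := by decide +kernel

end Pool.Agent.H110.Refl
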