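import Pool.Agent.H110.Refl.AlgB

/-! Part of the exhaustive search, see `Pool.Agent.H110.Refl.AlgB`. -/

namespace Pool.Agent.H110.Refl

theorem kA_1_0 : run CH 2 8 6 1
  0x3fffe2ffff1bfff8efffc7bffe3efff1fbff8feff87fbfc3fefe1ffbf0ffef87ffbc3ffee1fffb0fffe87fff83f8001d5372f2ae1b7ed1
  0x20000100000800004000020000100000800004000020000100000800004000020000100000800004000000000000000000003f80023fffc
  0x4 = true := by decide +kernel

theorem kA_14_0 : run CH 2 8 6 14
  0x2a0022500103fff0efff81bffc3efff07bff03eff81fbfc0fefe07fbf03fef81ffbc0ffee07ffb03ffe81fff8310001e24b3f946341b12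
  0x20000100000800000000020000100000800004000020000100000800004000020000100000800004000020000000000000003100023bffe
  0x3bffe = true := by decide +kernel

theorem kB_14_0 : run CHm 3 7 7 14
  0x2a0002500003fff8efff81bffe3effe07bff83effc1fbfe0feff07fbf83fefc1ffbe0ffef07ffb83ffec1fffa0affe1daf53f69b2135a2
  0x20000100000800000000020000100000800004000020000100000800004000020000100000800004000020000000000000000affe13bffe
  0x3bffe = true := by decide +kernel

theorem kA_2_7 : run CH 2 8 6 2
  0x3fffe2ffff1bfff8efffc7bffe3efff1fbff8feff87fbfc3fefe1ffbf0ffef87ffbc3ffee1fffb0fffe87fffa3f8021d5372f2af1b7ee1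
  0x20000100000800004000020000100000800004000020000100000800004000020000100000800000000020000000000000003f80223fffa
  0x800 = true := by decide +kernel

theorem kA_17_7 : run CH 2 8 6 17
  0x3fffc2ffff1bfff0efff87bffc3efff1fbff0feff87fbfc3fefe1ffbf0ffef87ffbc3ffee1fffb0fffe87fff8110001cab72f1ae041ed1
  0x100000800004000020000100000800004000020000100000800004000020000100000800004000020000000000000001100021fffe
  0x40 = true := by decide +kernel

theorem kA_1_14 : run CH 2 8 6 1
  0x3fffe2ffff1bfff8efffc7bffe3efff1fbff8feff87fbfc3fefe1ffbf0ffef87ffbc3ffee1fffb0fffe87fff83f8001d5372f2ae1b7ed1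
  0x20000100000800004000020000100000800004000020000100000800004000020000100000800004000000000000000000003f80023fffc
  0x1000 = true := by decide +kernel

end Pool.Agent.H110.Refl
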