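import Pool.Agent.H110.Refl.AlgB

/-! Part of the exhaustive search, see `Pool.Agent.H110.Refl.AlgB`. -/

namespace Pool.Agent.H110.Refl

theorem kA_1_1 : run CH 2 8 6 1
  0x3fffe2ffff1bfff8efffc7bffe3efff1fbff8feff87fbfc3fefe1ffbf0ffef87ffbc3ffee1fffb0fffe87fff83f8001d5372f2ae1b7ed1
  0x20000100000800004000020000100000800004000020000100000800004000020000100000800004000000000000000000003f80023fffc
  0x20000 = true := by decide +kernel

theorem kD_3_0 : run CHm 2 8 6 3
  0x3fffe2ffff1bfff8efffc7bffe3efff1fbff8feffc7fbfe3fefe1ffbf8ffef87ffbc3ffee1fffb0fffec7fffa3fe861d5392f2ff1bb501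
  0x20000100000800004000020000100000800004000020000100000800004000020000100000000004000020000000000000000017013fff6
  0x3fff6 = true := by decide +kernel

theorem kB_7_0 : run CHm 3 7 7 7
  0x3ff0c2ff961bfcb0efe587bf2c3efd61fbeb0fefd87fbfe3feff1ffbf007ee400fb21ffe9001f88ffe087ff0800378165be8e31f7df15f
  0x20000100000800004000020000100000800004000020000100000000004000020000100000800004000020000000000000000037813ff7e
  0x3ff7e = true := by decide +kernel

theorem kD_14_0 : run CHm 2 8 6 14
  0x2a0022500103fff0efff81bffc3efff07bff03eff81fbfc0fefe07fbf03fef81ffbc0ffee07ffb03ffe81fff8310001e24b3f946341b12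
  0x20000100000800000000020000100000800004000020000100000800004000020000100000800004000020000000000000000affe13bffe
  0x3bffe = true := by decide +kernel

theorem kC_11_0 : run CH 2 7 7 11
  0x3f0002fc001bc000ef0407b0003ef101fbff056ffc03bfe01eff007bf803efc01fbe05fef007fb803fec01ffa007fe09ed0187f7bea8ec
  0x20000100000800004000020000100000000004000020000100000800004000020000100000800004000020000000000000003f00013f7fe
  0x3f7fe = true := by decide +kernel

theorem kA_1_11 : run CH 2 8 6 1
  0x3fffe2ffff1bfff8efffc7bffe3efff1fbff8feff87fbfc3fefe1ffbf0ffef87ffbc3ffee1fffb0fffe87fff83f8001d5372f2ae1b7ed1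
  0x20000100000800004000020000100000800004000020000100000800004000020000100000800004000000000000000000003f80023fffc
  0x400 = true := by decide +kernel

end Pool.Agent.H110.Refl
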