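import Pool.Agent.H110.Refl.AlgB

/-! Part of the exhaustive search, see `Pool.Agent.H110.Refl.AlgB`. -/

namespace Pool.Agent.H110.Refl

theorem kA_17_0 : run CH 2 8 6 17
  0x3fffc2ffff1bfff0efff87bffc3efff1fbff0feff87fbfc3fefe1ffbf0ffef87ffbc3ffee1fffb0fffe87fff8110001cab72f1ae041ed1
  0x100000800004000020000100000800004000020000100000800004000020000100000800004000020000000000000001100021fffe
  0x2 = true := by decide +kernel

theorem kC_2_0 : run CH 2 7 7 2
  0x3fffc2fffe1bfff0efff87bffc3effe1fbff0feffc7fbfe3feff1ffbf8ffefc7ffbe3ffef1fffb8fffe87fff8007f81cadf2ee01fbd931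
  0x20000100000800004000020000100000800004000020000100000800004000020000100000800000000020000000000000003f80213fffa
  0x3fffa = true := by decide +kernel

theorem kC_6_0 : run CH 2 7 7 6
  0x3ffdc2fffe1bfff0efff87bffc3effe1fbff0feff87fbfc3fefe1ffbf0ffef87ff9c1ffc11fff30fffa87ffd80001014a16aece9fb9551
  0x20000100000800004000020000100000800004000020000100000800000000020000100000800004000020000000000000003ffae13ffbe
  0x3ffbe = true := by decide +kernel

theorem kA_11_0 : run CH 2 8 6 11
  0x3f0022fc011bc008ef0447b0023ef111fbff056ff803bfc01efe007bf003ef801fbc05fee007fb003fe801ff83f0000a8a618ca2de0e5c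
  0x20000100000800004000020000100000000004000020000100000800004000020000100000800004000020000000000000003f00023f7fe
  0x3f7fe = true := by decide +kernel

theorem kD_11_0 : run CHm 2 8 6 11
  0x3f0022fc011bc008ef0447b0023ef111fbff056ff803bfc01efe007bf003ef801fbc05fee007fb003fe801ff83f0000a8a618ca2de0e5c
  0x2000010000080000400002000010000000000400002000010000080000400002000010000080000400002000000000000000007fe13f7fe
  0x3f7fe = true := by decide +kernel

theorem kA_2_13 : run CH 2 8 6 2
  0x3fffe2ffff1bfff8efffc7bffe3efff1fbff8feff87fbfc3fefe1ffbf0ffef87ffbc3ffee1fffb0fffe87fffa3f8021d5372f2af1b7ee1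
  0x20000100000800004000020000100000800004000020000100000800004000020000100000800000000020000000000000003f80223fffa
  0x1000 = true := by decide +kernel

end Pool.Agent.H110.Refl
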