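import Pool.Agent.H110.Refl.K01

/-! Part of the exhaustive search, see `Pool.Agent.H110.Refl.AlgB`. -/

namespace Pool.Agent.H110.Refl

theorem kA_4_2 : run CH 2 8 6 4
  0x3fffe2ffff1bfff8efffc7bffe3efff1fbff8feffc7fbfe3feff1ffbf8ffefc7ffbe3ffee1fffb8fffec7fffa3ffee1d5612f2ff1bc0e1
  0x20000100000800004000020000100000800004000020000100000800004000020000000000800004000020000000000000003ffee23ffee
  0x208 = true := by decide +kernel

theorem kD_16_0 : run CHm 2 8 6 16
  0x3fffc2fffe1bfff0efff87bffc3efff1fbff0feff87fbfc3fefe1ffbf0ffef87ffbc3ffee1fffb0fffe87fff8010001cab72edadfc1ed1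
  0x20000000000800004000020000100000800004000020000100000800004000020000100000800004000020000000000000002effe12fffe
  0x2fffe = true := by decide +kernel

theorem kA_2_3 : run CH 2 8 6 2
  0x3fffe2ffff1bfff8efffc7bffe3efff1fbff8feff87fbfc3fefe1ffbf0ffef87ffbc3ffee1fffb0fffe87fffa3f8021d5372f2af1b7ee1
  0x20000100000800004000020000100000800004000020000100000800004000020000100000800000000020000000000000003f80223fffa
  0x2000 = true := by decide +kernel

theorem kA_17_3 : run CH 2 8 6 17
  0x3fffc2ffff1bfff0efff87bffc3efff1fbff0feff87fbfc3fefe1ffbf0ffef87ffbc3ffee1fffb0fffe87fff8110001cab72f1ae041ed1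
  0x100000800004000020000100000800004000020000100000800004000020000100000800004000020000000000000001100021fffe
  0x20 = true := by decide +kernel

theorem kA_17_5 : run CH 2 8 6 17
  0x3fffc2ffff1bfff0efff87bffc3efff1fbff0feff87fbfc3fefe1ffbf0ffef87ffbc3ffee1fffb0fffe87fff8110001cab72f1ae041ed1
  0x100000800004000020000100000800004000020000100000800004000020000100000800004000020000000000000001100021fffe
  0x4000 = true := by decide +kernel

end Pool.Agent.H110.Refl
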