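import Pool.Agent.H110.Refl.K02

/-! Part of the exhaustive search, see `Pool.Agent.H110.Refl.AlgB`. -/

namespace Pool.Agent.H110.Refl

theorem kA_4_0 : run CH 2 8 6 4
  0x3fffe2ffff1bfff8efffc7bffe3efff1fbff8feffc7fbfe3feff1ffbf8ffefc7ffbe3ffee1fffb8fffec7fffa3ffee1d5612f2ff1bc0e1
  0x20000100000800004000020000100000800004000020000100000800004000020000000000800004000020000000000000003ffee23ffee
  0x88c0 = true := by decide +kernel

theorem kD_1_0 : run CHm 2 8 6 1
  0x3fffe2ffff1bfff8efffc7bffe3efff1fbff8feff87fbfc3fefe1ffbf0ffef87ffbc3ffee1fffb0fffe87fff83f8001d5372f2ae1b7ed1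
  0x2000010000080000400002000010000080000400002000010000080000400002000010000080000400000000000000000000007fc13fffc
  0x3fffc = true := by decide +kernel

theorem kA_13_0 : run CH 2 8 6 13
  0x3e0022fe111b8008efc447bffc3eff10bbff05eff82fbfc07efe01fbf00fef807fbc17fee017fb00bfe805ff83d000068a8169a4c00da6
  0x20000100000800004000000000100000800004000020000100000800004000020000100000800004000020000000000000003d00023dffe
  0x3dffe = true := by decide +kernel

theorem kB_8_0 : run CHm 3 7 7 8
  0x3ff5c2ffbe1bfdf0efef87bf7c3efbe1fbdf0feef87fb7c3fefe1ff970004447ff1c1ff411ffd30ffea87ff58000500a796995a7f1b8d0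
  0x20000100000800004000020000100000800004000020000000000800004000020000100000800004000020000000000000000005013fefe
  0x3fefe = true := by decide +kernel

theorem kA_1_10 : run CH 2 8 6 1
  0x3fffe2ffff1bfff8efffc7bffe3efff1fbff8feff87fbfc3fefe1ffbf0ffef87ffbc3ffee1fffb0fffe87fff83f8001d5372f2ae1b7ed1
  0x20000100000800004000020000100000800004000020000100000800004000020000100000800004000000000000000000003f80023fffc
  0x200 = true := by decide +kernel

theorem kA_2_11 : run CH 2 8 6 2
  0x3fffe2ffff1bfff8efffc7bffe3efff1fbff8feff87fbfc3fefe1ffbf0ffef87ffbc3ffee1fffb0fffe87fffa3f8021d5372f2af1b7ee1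
  0x20000100000800004000020000100000800004000020000100000800004000020000100000800000000020000000000000003f80223fffa
  0x400 = true := by decide +kernel

end Pool.Agent.H110.Refl
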