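import Pool.Agent.H110.Refl.K04

/-! Part of the exhaustive search, see `Pool.Agent.H110.Refl.AlgB`. -/

namespace Pool.Agent.H110.Refl

theorem kA_4_1 : run CH 2 8 6 4
  0x3fffe2ffff1bfff8efffc7bffe3efff1fbff8feffc7fbfe3feff1ffbf8ffefc7ffbe3ffee1fffb8fffec7fffa3ffee1d5612f2ff1bc0e1
  0x20000100000800004000020000100000800004000020000100000800004000020000000000800004000020000000000000003ffee23ffee
  0x36126 = true := by decide +kernel

theorem kA_2_2 : run CH 2 8 6 2
  0x3fffe2ffff1bfff8efffc7bffe3efff1fbff8feff87fbfc3fefe1ffbf0ffef87ffbc3ffee1fffb0fffe87fffa3f8021d5372f2af1b7ee1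
  0x20000100000800004000020000100000800004000020000100000800004000020000100000800000000020000000000000003f80223fffa
  0x8000 = true := by decide +kernel

theorem kA_1_3 : run CH 2 8 6 1
  0x3fffe2ffff1bfff8efffc7bffe3efff1fbff8feff87fbfc3fefe1ffbf0ffef87ffbc3ffee1fffb0fffe87fff83f8001d5372f2ae1b7ed1
  0x20000100000800004000020000100000800004000020000100000800004000020000100000800004000000000000000000003f80023fffc
  0x20 = true := by decide +kernel

theorem kC_8_0 : run CH 2 7 7 8
  0x3ff5c2ffbe1bfdf0efef87bf7c3efbe1fbdf0feef87fb7c3fefe1ff970004447ff1c1ff411ffd30ffea87ff58000500a796995a7f1b8d0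
  0x20000100000800004000020000100000800004000020000000000800004000020000100000800004000020000000000000003feae13fefe
  0x3fefe = true := by decide +kernel

theorem kA_2_8 : run CH 2 8 6 2
  0x3fffe2ffff1bfff8efffc7bffe3efff1fbff8feff87fbfc3fefe1ffbf0ffef87ffbc3ffee1fffb0fffe87fffa3f8021d5372f2af1b7ee1
  0x20000100000800004000020000100000800004000020000100000800004000020000100000800000000020000000000000003f80223fffa
  0x100 = true := by decide +kernel

theorem kA_12_0 : run CH 2 8 6 12
  0x3fffc2fffe1bfff0efff87bffc3effe1fbff0feff87fbfc3fefe1ffbf0ffef87ffbc3ffee1fffb0fffe87fff8000001cab72edadfb96d1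
  0x20000100000800004000020000000000800004000020000100000800004000020000100000800004000020000000000000000000023effe
  0x3effe = true := by decide +kernel

theorem kA_1_15 : run CH 2 8 6 1
  0x3fffe2ffff1bfff8efffc7bffe3efff1fbff8feff87fbfc3fefe1ffbf0ffef87ffbc3ffee1fffb0fffe87fff83f8001d5372f2ae1b7ed1
  0x20000100000800004000020000100000800004000020000100000800004000020000100000800004000000000000000000003f80023fffc
  0x10000 = true := by decide +kernel

end Pool.Agent.H110.Refl
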