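import Pool.Agent.H110.Refl.K06

/-! Part of the exhaustive search, see `Pool.Agent.H110.Refl.AlgB`. -/

namespace Pool.Agent.H110.Refl

theorem kA_17_1 : run CH 2 8 6 17
  0x3fffc2ffff1bfff0efff87bffc3efff1fbff0feff87fbfc3fefe1ffbf0ffef87ffbc3ffee1fffb0fffe87fff8110001cab72f1ae041ed1
  0x100000800004000020000100000800004000020000100000800004000020000100000800004000020000000000000001100021fffe
  0x10000 = true := by decide +kernel

theorem kB_1_0 : run CHm 3 7 7 1
  0x3fffc2fffe1bfff0efff87bffc3effe1fbff0feffc7fbfe3feff1ffbf8ffefc7ffbe3ffef1fffb8fffec7fff8007fc1cae12ee01fbd951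
  0x2000010000080000400002000010000080000400002000010000080000400002000010000080000400000000000000000000007fc13fffc
  0x3fffc = true := by decide +kernel

theorem kA_2_4 : run CH 2 8 6 2
  0x3fffe2ffff1bfff8efffc7bffe3efff1fbff8feff87fbfc3fefe1ffbf0ffef87ffbc3ffee1fffb0fffe87fffa3f8021d5372f2af1b7ee1
  0x20000100000800004000020000100000800004000020000100000800004000020000100000800000000020000000000000003f80223fffa
  0x20 = true := by decide +kernel

theorem kB_13_0 : run CHm 3 7 7 13
  0x3e0002fe101b8000efc407bffc3eff00bbff85effc2fbfe07eff01fbf80fefc07fbe17fef017fb80bfec05ffa00ffe05f52165f9a1e836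
  0x200001000008000040000000001000008000040000200001000008000040000200001000008000040000200000000000000000ffe13dffe
  0x3dffe = true := by decide +kernel

theorem kC_9_0 : run CH 2 7 7 9
  0x3fd0c2fe961bf4b0efa587bd2c3ee961fb4b0fea587fbfc002791ff03000ce4006b21ff69001b88ffa087fd080017810efe3709f458f1a
  0x20000100000800004000020000100000800004000000000100000800004000020000100000800004000020000000000000003fc8613fdfe
  0x3fdfe = true := by decide +kernel

theorem kD_10_0 : run CHm 2 8 6 10
  0x3f80e2fc071be038ef01c7b80e3ec171fa038feff800bf0006f8003bc001ee000fb0017e8003f80ff00c7f80a3f80616052ff634122edd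
  0x2000010000080000400002000010000080000000002000010000080000400002000010000080000400002000000000000000003f813fbfe
  0x3fbfe = true := by decide +kernel

end Pool.Agent.H110.Refl
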