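import Pool.Agent.H110.Refl.K07

/-! Part of the exhaustive search, see `Pool.Agent.H110.Refl.AlgB`. -/

namespace Pool.Agent.H110.Refl

theorem kA_3_1 : run CH 2 8 6 3
  0x3fffe2ffff1bfff8efffc7bffe3efff1fbff8feffc7fbfe3fefe1ffbf8ffef87ffbc3ffee1fffb0fffec7fffa3fe861d5392f2ff1bb501
  0x20000100000800004000020000100000800004000020000100000800004000020000100000000004000020000000000000003fe8623fff6
  0x39432 = true := by decide +kernel

theorem kA_15_1 : run CH 2 8 6 15
  0x3a0022fff11bfff0efffc3bffc3efff0fbff07eff83fbfc1fefe0ffbf07fef83ffbc1ffee07ffb03ffe81fff8350001e48c7b9a8b61d66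
  0x200001000000000040000200001000008000040000200001000008000040000200001000008000040000200000000000000035000237ffe
  0x37ffc = true := by decide +kernel

theorem kC_15_0 : run CH 2 7 7 15
  0x3a0002fff01bfff0efff83bffe3effe0fbff87effc3fbfe1feff0ffbf87fefc3ffbe1ffef07ffb83ffec1fffa02ffe1db367b6fd9d17f6
  0x200001000000000040000200001000008000040000200001000008000040000200001000008000040000200000000000000035000137ffe
  0x37ffe = true := by decide +kernel

theorem kA_2_6 : run CH 2 8 6 2
  0x3fffe2ffff1bfff8efffc7bffe3efff1fbff8feff87fbfc3fefe1ffbf0ffef87ffbc3ffee1fffb0fffe87fffa3f8021d5372f2af1b7ee1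
  0x20000100000800004000020000100000800004000020000100000800004000020000100000800000000020000000000000003f80223fffa
  0x80 = true := by decide +kernel

theorem kA_2_9 : run CH 2 8 6 2
  0x3fffe2ffff1bfff8efffc7bffe3efff1fbff8feff87fbfc3fefe1ffbf0ffef87ffbc3ffee1fffb0fffe87fffa3f8021d5372f2af1b7ee1
  0x20000100000800004000020000100000800004000020000100000800004000020000100000800000000020000000000000003f80223fffa
  0x200 = true := by decide +kernel

theorem kC_10_0 : run CH 2 7 7 10
  0x3f80c2fc061be030ef0187b80c3ec161fa030feff800bf2006f9003bc801ee400fb2017e9003f88ff0087f808003f8155f8ff146f2690d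
  0x20000100000800004000020000100000800000000020000100000800004000020000100000800004000020000000000000003f80613fbfe
  0x3fbfe = true := by decide +kernel

end Pool.Agent.H110.Refl
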