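import Pool.Agent.H110.Refl.K08

/-! Part of the exhaustive search, see `Pool.Agent.H110.Refl.AlgB`. -/

namespace Pool.Agent.H110.Refl

theorem kA_3_2 : run CH 2 8 6 3
  0x3fffe2ffff1bfff8efffc7bffe3efff1fbff8feffc7fbfe3fefe1ffbf8ffef87ffbc3ffee1fffb0fffec7fffa3fe861d5392f2ff1bb501
  0x20000100000800004000020000100000800004000020000100000800004000020000100000000004000020000000000000003fe8623fff6
  0x2ac0 = true := by decide +kernel

theorem kB_16_0 : run CHm 3 7 7 16
  0x3fffe2fffe1bfff8efffc7bffe3effe1fbff8feffc7fbfe3feff1ffbf8ffefc7ffbe3ffef1fffb8fffec7fffa2effe1d5612ef03133961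
  0x20000000000800004000020000100000800004000020000100000800004000020000100000800004000020000000000000002effe12fffe
  0x2fffe = true := by decide +kernel

theorem kC_5_0 : run CH 2 7 7 5
  0x3ffdc2fffe1bfff0efff87bffc3effe1fbff0feff87fbfc3fef71ffbf0ffecc7ffbc1ffe11ff530ffea87ffd80015014936aed69fb71d1
  0x20000100000800004000020000100000800004000020000100000800004000000000100000800004000020000000000000003fe8e13ffde
  0x3ffde = true := by decide +kernel

theorem kD_5_0 : run CHm 2 8 6 5
  0x3ffde2ffff1bfff8efffc7bffe3efff1fbff8feffc7fbfe3fef61ffbf8ffec87ffbc1ffe01ff538ffeac7ffda3fe8e15398af2b71b8561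
  0x20000100000800004000020000100000800004000020000100000800004000000000100000800004000020000000000000000015013ffde
  0x3ffde = true := by decide +kernel

theorem kD_4_0 : run CHm 2 8 6 4
  0x3fffe2ffff1bfff8efffc7bffe3efff1fbff8feffc7fbfe3feff1ffbf8ffefc7ffbe3ffee1fffb8fffec7fffa3ffee1d5612f2ff1bc0e1
  0x20000100000800004000020000100000800004000020000100000800004000020000000000800004000020000000000000000000013ffee
  0x3ffee = true := by decide +kernel

theorem kA_1_12 : run CH 2 8 6 1
  0x3fffe2ffff1bfff8efffc7bffe3efff1fbff8feff87fbfc3fefe1ffbf0ffef87ffbc3ffee1fffb0fffe87fff83f8001d5372f2ae1b7ed1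
  0x20000100000800004000020000100000800004000020000100000800004000020000100000800004000000000000000000003f80023fffc
  0x8 = true := by decide +kernel

theorem kA_17_15 : run CH 2 8 6 17
  0x3fffc2ffff1bfff0efff87bffc3efff1fbff0feff87fbfc3fefe1ffbf0ffef87ffbc3ffee1fffb0fffe87fff8110001cab72f1ae041ed1
  0x100000800004000020000100000800004000020000100000800004000020000100000800004000020000000000000001100021fffe
  0x1000 = true := by decide +kernel

end Pool.Agent.H110.Refl
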