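import Pool.Agent.H110.Refl.K09

/-! Part of the exhaustive search, see `Pool.Agent.H110.Refl.AlgB`. -/

namespace Pool.Agent.H110.Refl

theorem kA_6_0 : run CH 2 8 6 6
  0x3ffde2ffff1bfff8efffc7bffe3efff1fbff8feffc7fbfe3feff1ffbf8ffef87ff9e1ffc01fff38fffac7ffda3ffae154c0af2371bbc61
  0x20000100000800004000020000100000800004000020000100000800000000020000100000800004000020000000000000003ffae23ffbe
  0x4500 = true := by decide +kernel

theorem kA_16_1 : run CH 2 8 6 16
  0x3fffc2fffe1bfff0efff87bffc3efff1fbff0feff87fbfc3fefe1ffbf0ffef87ffbc3ffee1fffb0fffe87fff8010001cab72edadfc1ed1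
  0x20000000000800004000020000100000800004000020000100000800004000020000100000800004000020000000000000000100022fffe
  0xfffe = true := by decide +kernel

theorem kA_8_0 : run CH 2 8 6 8
  0x3ff5e2ffbf1bfdf8efefc7bf7e3efbf1fbdf8feefc7fb7e3fefe1ff978004407ff1e1ff401ffd38ffeac7ff5a3feae0b22099af511d560
  0x20000100000800004000020000100000800004000020000000000800004000020000100000800004000020000000000000003feae23fefe
  0x3fefe = true := by decide +kernel

theorem kC_7_0 : run CH 2 7 7 7
  0x3ff0c2ff961bfcb0efe587bf2c3efd61fbeb0fefd87fbfe3feff1ffbf007ee400fb21ffe9001f88ffe087ff0800378165be8e31f7df15f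
  0x20000100000800004000020000100000800004000020000100000000004000020000100000800004000020000000000000003fc0613ff7e
  0x3ff7e = true := by decide +kernel

theorem kB_9_0 : run CHm 3 7 7 9
  0x3fd0c2fe961bf4b0efa587bd2c3ee961fb4b0fea587fbfc002791ff03000ce4006b21ff69001b88ffa087fd080017810efe3709f458f1a
  0x20000100000800004000020000100000800004000000000100000800004000020000100000800004000020000000000000000017813fdfe
  0x3fdfe = true := by decide +kernel

theorem kB_10_0 : run CHm 3 7 7 10
  0x3f80c2fc061be030ef0187b80c3ec161fa030feff800bf2006f9003bc801ee400fb2017e9003f88ff0087f808003f8155f8ff146f2690d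
  0x2000010000080000400002000010000080000000002000010000080000400002000010000080000400002000000000000000003f813fbfe
  0x3fbfe = true := by decide +kernel

theorem kA_2_15 : run CH 2 8 6 2
  0x3fffe2ffff1bfff8efffc7bffe3efff1fbff8feff87fbfc3fefe1ffbf0ffef87ffbc3ffee1fffb0fffe87fffa3f8021d5372f2af1b7ee1
  0x20000100000800004000020000100000800004000020000100000800004000020000100000800000000020000000000000003f80223fffa
  0x20000 = true := by decide +kernel

end Pool.Agent.H110.Refl
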