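import Pool.Agent.H110.Refl.K10

/-! Part of the exhaustive search, see `Pool.Agent.H110.Refl.AlgB`. -/

namespace Pool.Agent.H110.Refl

theorem kB_12_0 : run CHm 3 7 7 12
  0x3fffe2ffff1bfff8efffc7bffe3effe1fbff8feffc7fbfe3feff1ffbf8ffefc7ffbe3ffef1fffb8fffec7fffa3effe1d5612f3031b3961
  0x20000100000800004000020000000000800004000020000100000800004000020000100000800004000020000000000000003effe13effe
  0x3effe = true := by decide +kernel

theorem kA_7_0 : run CH 2 8 6 7
  0x3ff0e2ff971bfcb8efe5c7bf2e3efd71fbeb8fefdc7fbfc3fefe1ffbf007ee000fb01ffe8001f80ffe0c7ff0a3fc06170188e85c9ddb2f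
  0x20000100000800004000020000100000800004000020000100000000004000020000100000800004000020000000000000003fc0623ff7e
  0x3ff7e = true := by decide +kernel

theorem kB_5_0 : run CHm 3 7 7 5
  0x3ffdc2fffe1bfff0efff87bffc3effe1fbff0feff87fbfc3fef71ffbf0ffecc7ffbc1ffe11ff530ffea87ffd80015014936aed69fb71d1
  0x20000100000800004000020000100000800004000020000100000800004000000000100000800004000020000000000000000015013ffde
  0x3ffde = true := by decide +kernel

theorem kC_14_0 : run CH 2 7 7 14
  0x2a0002500003fff8efff81bffe3effe07bff83effc1fbfe0feff07fbf83fefc1ffbe0ffef07ffb83ffec1fffa0affe1daf53f69b2135a2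
  0x20000100000800000000020000100000800004000020000100000800004000020000100000800004000020000000000000003100013bffe
  0x3bffe = true := by decide +kernel

theorem kA_17_6 : run CH 2 8 6 17
  0x3fffc2ffff1bfff0efff87bffc3efff1fbff0feff87fbfc3fefe1ffbf0ffef87ffbc3ffee1fffb0fffe87fff8110001cab72f1ae041ed1
  0x100000800004000020000100000800004000020000100000800004000020000100000800004000020000000000000001100021fffe
  0x2000 = true := by decide +kernel

theorem kA_17_12 : run CH 2 8 6 17
  0x3fffc2ffff1bfff0efff87bffc3efff1fbff0feff87fbfc3fefe1ffbf0ffef87ffbc3ffee1fffb0fffe87fff8110001cab72f1ae041ed1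
  0x100000800004000020000100000800004000020000100000800004000020000100000800004000020000000000000001100021fffe
  0x4 = true := by decide +kernel

end Pool.Agent.H110.Refl
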