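import Pool.Agent.H110.Refl.K11

/-! Part of the exhaustive search, see `Pool.Agent.H110.Refl.AlgB`. -/

namespace Pool.Agent.H110.Refl

theorem kA_6_1 : run CH 2 8 6 6
  0x3ffde2ffff1bfff8efffc7bffe3efff1fbff8feffc7fbfe3feff1ffbf8ffef87ff9e1ffc01fff38fffac7ffda3ffae154c0af2371bbc61
  0x20000100000800004000020000100000800004000020000100000800000000020000100000800004000020000000000000003ffae23ffbe
  0xa090 = true := by decide +kernel

theorem kD_17_0 : run CHm 2 8 6 17
  0x3fffc2ffff1bfff0efff87bffc3efff1fbff0feff87fbfc3fefe1ffbf0ffef87ffbc3ffee1fffb0fffe87fff8110001cab72f1ae041ed1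
  0x100000800004000020000100000800004000020000100000800004000020000100000800004000020000000000000000effe11fffe
  0x1fffe = true := by decide +kernel

theorem kC_17_0 : run CH 2 7 7 17
  0x3fffc2fffe1bfff8efffc7bffe3effe1fbff8feffc7fbfe3feff1ffbf8ffefc7ffbe3ffef1fffb8fffec7fffa0effe1cd612ef03033961
  0x100000800004000020000100000800004000020000100000800004000020000100000800004000020000000000000001100011fffe
  0x1fffe = true := by decide +kernel

theorem kA_17_4 : run CH 2 8 6 17
  0x3fffc2ffff1bfff0efff87bffc3efff1fbff0feff87fbfc3fefe1ffbf0ffef87ffbc3ffee1fffb0fffe87fff8110001cab72f1ae041ed1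
  0x100000800004000020000100000800004000020000100000800004000020000100000800004000020000000000000001100021fffe
  0x80 = true := by decide +kernel

theorem kD_9_0 : run CHm 2 8 6 9
  0x3fd0e2fe971bf4b8efa5c7bd2e3ee971fb4b8fea5c7fbfc002781ff03800ce0006b01ff68001b80ffa0c7fd0a3fc8611958375ec658eea
  0x20000100000800004000020000100000800004000000000100000800004000020000100000800004000020000000000000000017813fdfe
  0x3fdfe = true := by decide +kernel

theorem kD_12_0 : run CHm 2 8 6 12
  0x3fffc2fffe1bfff0efff87bffc3effe1fbff0feff87fbfc3fefe1ffbf0ffef87ffbc3ffee1fffb0fffe87fff8000001cab72edadfb96d1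
  0x20000100000800004000020000000000800004000020000100000800004000020000100000800004000020000000000000003effe13effe
  0x3effe = true := by decide +kernel

theorem kA_17_13 : run CH 2 8 6 17
  0x3fffc2ffff1bfff0efff87bffc3efff1fbff0feff87fbfc3fefe1ffbf0ffef87ffbc3ffee1fffb0fffe87fff8110001cab72f1ae041ed1
  0x100000800004000020000100000800004000020000100000800004000020000100000800004000020000000000000001100021fffe
  0x8 = true := by decide +kernel

end Pool.Agent.H110.Refl
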