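import Pool.Agent.H110.Refl.K12

/-! Part of the exhaustive search, see `Pool.Agent.H110.Refl.AlgB`. -/

namespace Pool.Agent.H110.Refl

theorem kA_2_1 : run CH 2 8 6 2
  0x3fffe2ffff1bfff8efffc7bffe3efff1fbff8feff87fbfc3fefe1ffbf0ffef87ffbc3ffee1fffb0fffe87fffa3f8021d5372f2af1b7ee1
  0x20000100000800004000020000100000800004000020000100000800004000020000100000800000000020000000000000003f80223fffa
  0x8 = true := by decide +kernel

theorem kA_5_0 : run CH 2 8 6 5
  0x3ffde2ffff1bfff8efffc7bffe3efff1fbff8feffc7fbfe3fef61ffbf8ffec87ffbc1ffe01ff538ffeac7ffda3fe8e15398af2b71b8561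
  0x20000100000800004000020000100000800004000020000100000800004000000000100000800004000020000000000000003fe8e23ffde
  0x788 = true := by decide +kernel

theorem kD_15_0 : run CHm 2 8 6 15
  0x3a0022fff11bfff0efffc3bffc3efff0fbff07eff83fbfc1fefe0ffbf07fef83ffbc1ffee07ffb03ffe81fff8350001e48c7b9a8b61d66
  0x200001000000000040000200001000008000040000200001000008000040000200001000008000040000200000000000000002ffe137ffe
  0x37ffe = true := by decide +kernel

theorem kD_13_0 : run CHm 2 8 6 13
  0x3e0022fe111b8008efc447bffc3eff10bbff05eff82fbfc07efe01fbf00fef807fbc17fee017fb00bfe805ff83d000068a8169a4c00da6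
  0x200001000008000040000000001000008000040000200001000008000040000200001000008000040000200000000000000000ffe13dffe
  0x3dffe = true := by decide +kernel

theorem kA_1_9 : run CH 2 8 6 1
  0x3fffe2ffff1bfff8efffc7bffe3efff1fbff8feff87fbfc3fefe1ffbf0ffef87ffbc3ffee1fffb0fffe87fff83f8001d5372f2ae1b7ed1
  0x20000100000800004000020000100000800004000020000100000800004000020000100000800004000000000000000000003f80023fffc
  0x100 = true := by decide +kernel

theorem kD_8_0 : run CHm 2 8 6 8
  0x3ff5e2ffbf1bfdf8efefc7bf7e3efbf1fbdf8feefc7fb7e3fefe1ff978004407ff1e1ff401ffd38ffeac7ff5a3feae0b22099af511d560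
  0x20000100000800004000020000100000800004000020000000000800004000020000100000800004000020000000000000000005013fefe
  0x3fefe = true := by decide +kernel

theorem kA_1_13 : run CH 2 8 6 1
  0x3fffe2ffff1bfff8efffc7bffe3efff1fbff8feff87fbfc3fefe1ffbf0ffef87ffbc3ffee1fffb0fffe87fff83f8001d5372f2ae1b7ed1
  0x20000100000800004000020000100000800004000020000100000800004000020000100000800004000000000000000000003f80023fffc
  0x10 = true := by decide +kernel

end Pool.Agent.H110.Refl
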