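import Pool.Agent.H110.Refl.K13

/-! Part of the exhaustive search, see `Pool.Agent.H110.Refl.AlgB`. -/

namespace Pool.Agent.H110.Refl

theorem kB_2_0 : run CHm 3 7 7 2
  0x3fffc2fffe1bfff0efff87bffc3effe1fbff0feffc7fbfe3feff1ffbf8ffefc7ffbe3ffef1fffb8fffe87fff8007f81cadf2ee01fbd931
  0x2000010000080000400002000010000080000400002000010000080000400002000010000080000000002000000000000000007f813fffa
  0x3fffa = true := by decide +kernel

theorem kA_5_1 : run CH 2 8 6 5
  0x3ffde2ffff1bfff8efffc7bffe3efff1fbff8feffc7fbfe3fef61ffbf8ffec87ffbc1ffe01ff538ffeac7ffda3fe8e15398af2b71b8561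
  0x20000100000800004000020000100000800004000020000100000800004000000000100000800004000020000000000000003fe8e23ffde
  0x3f856 = true := by decide +kernel

theorem kA_1_4 : run CH 2 8 6 1
  0x3fffe2ffff1bfff8efffc7bffe3efff1fbff8feff87fbfc3fefe1ffbf0ffef87ffbc3ffee1fffb0fffe87fff83f8001d5372f2ae1b7ed1
  0x20000100000800004000020000100000800004000020000100000800004000020000100000800004000000000000000000003f80023fffc
  0x2000 = true := by decide +kernel

theorem kD_6_0 : run CHm 2 8 6 6
  0x3ffde2ffff1bfff8efffc7bffe3efff1fbff8feffc7fbfe3feff1ffbf8ffef87ff9e1ffc01fff38fffac7ffda3ffae154c0af2371bbc61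
  0x20000100000800004000020000100000800004000020000100000800000000020000100000800004000020000000000000000001013ffbe
  0x3ffbe = true := by decide +kernel

theorem kA_17_8 : run CH 2 8 6 17
  0x3fffc2ffff1bfff0efff87bffc3efff1fbff0feff87fbfc3fefe1ffbf0ffef87ffbc3ffee1fffb0fffe87fff8110001cab72f1ae041ed1
  0x100000800004000020000100000800004000020000100000800004000020000100000800004000020000000000000001100021fffe
  0x800 = true := by decide +kernel

theorem kA_17_11 : run CH 2 8 6 17
  0x3fffc2ffff1bfff0efff87bffc3efff1fbff0feff87fbfc3fefe1ffbf0ffef87ffbc3ffee1fffb0fffe87fff8110001cab72f1ae041ed1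
  0x100000800004000020000100000800004000020000100000800004000020000100000800004000020000000000000001100021fffe
  0x400 = true := by decide +kernel

end Pool.Agent.H110.Refl
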