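import Pool.Agent.H110.Refl.K14

/-! Part of the exhaustive search, see `Pool.Agent.H110.Refl.AlgB`. -/

namespace Pool.Agent.H110.Refl

theorem kA_16_0 : run CH 2 8 6 16
  0x3fffc2fffe1bfff0efff87bffc3efff1fbff0feff87fbfc3fefe1ffbf0ffef87ffbc3ffee1fffb0fffe87fff8010001cab72edadfc1ed1
  0x20000000000800004000020000100000800004000020000100000800004000020000100000800004000020000000000000000100022fffe
  0x20000 = true := by decide +kernel

theorem kA_15_0 : run CH 2 8 6 15
  0x3a0022fff11bfff0efffc3bffc3efff0fbff07eff83fbfc1fefe0ffbf07fef83ffbc1ffee07ffb03ffe81fff8350001e48c7b9a8b61d66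
  0x200001000000000040000200001000008000040000200001000008000040000200001000008000040000200000000000000035000237ffe
  0x2 = true := by decide +kernel

theorem kA_17_2 : run CH 2 8 6 17
  0x3fffc2ffff1bfff0efff87bffc3efff1fbff0feff87fbfc3fefe1ffbf0ffef87ffbc3ffee1fffb0fffe87fff8110001cab72f1ae041ed1
  0x100000800004000020000100000800004000020000100000800004000020000100000800004000020000000000000001100021fffe
  0x8000 = true := by decide +kernel

theorem kD_7_0 : run CHm 2 8 6 7
  0x3ff0e2ff971bfcb8efe5c7bf2e3efd71fbeb8fefdc7fbfc3fefe1ffbf007ee000fb01ffe8001f80ffe0c7ff0a3fc06170188e85c9ddb2f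
  0x20000100000800004000020000100000800004000020000100000000004000020000100000800004000020000000000000000037813ff7e
  0x3ff7e = true := by decide +kernel

theorem kA_10_0 : run CH 2 8 6 10
  0x3f80e2fc071be038ef01c7b80e3ec171fa038feff800bf0006f8003bc001ee000fb0017e8003f80ff00c7f80a3f80616052ff634122edd
  0x20000100000800004000020000100000800000000020000100000800004000020000100000800004000020000000000000003f80623fbfe
  0x3fbfe = true := by decide +kernel

theorem kA_17_10 : run CH 2 8 6 17
  0x3fffc2ffff1bfff0efff87bffc3efff1fbff0feff87fbfc3fefe1ffbf0ffef87ffbc3ffee1fffb0fffe87fff8110001cab72f1ae041ed1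
  0x100000800004000020000100000800004000020000100000800004000020000100000800004000020000000000000001100021fffe
  0x200 = true := by decide +kernel

end Pool.Agent.H110.Refl
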