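import Pool.Agent.H110.Refl.K15

/-! Part of the exhaustive search, see `Pool.Agent.H110.Refl.AlgB`. -/

namespace Pool.Agent.H110.Refl

theorem kB_3_0 : run CHm 3 7 7 3
  0x3fffc2fffe1bfff0efff87bffc3effe1fbff0feff87fbfc3feff1ffbf0ffefc7ffbe3ffef1fffb0fffe87fff8001701cadf2edb1fba2d1
  0x20000100000800004000020000100000800004000020000100000800004000020000100000000004000020000000000000000017013fff6
  0x3fff6 = true := by decide +kernel

theorem kB_17_0 : run CHm 3 7 7 17
  0x3fffc2fffe1bfff8efffc7bffe3effe1fbff8feffc7fbfe3feff1ffbf8ffefc7ffbe3ffef1fffb8fffec7fffa0effe1cd612ef03033961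
  0x100000800004000020000100000800004000020000100000800004000020000100000800004000020000000000000000effe11fffe
  0x1fffe = true := by decide +kernel

theorem kB_6_0 : run CHm 3 7 7 6
  0x3ffdc2fffe1bfff0efff87bffc3effe1fbff0feff87fbfc3fefe1ffbf0ffef87ff9c1ffc11fff30fffa87ffd80001014a16aece9fb9551
  0x20000100000800004000020000100000800004000020000100000800000000020000100000800004000020000000000000000001013ffbe
  0x3ffbe = true := by decide +kernel

theorem kA_2_5 : run CH 2 8 6 2
  0x3fffe2ffff1bfff8efffc7bffe3efff1fbff8feff87fbfc3fefe1ffbf0ffef87ffbc3ffee1fffb0fffe87fffa3f8021d5372f2af1b7ee1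
  0x20000100000800004000020000100000800004000020000100000800004000020000100000800000000020000000000000003f80223fffa
  0x4000 = true := by decide +kernel

theorem kC_13_0 : run CH 2 7 7 13
  0x3e0002fe101b8000efc407bffc3eff00bbff85effc2fbfe07eff01fbf80fefc07fbe17fef017fb80bfec05ffa00ffe05f52165f9a1e836
  0x20000100000800004000000000100000800004000020000100000800004000020000100000800004000020000000000000003d00013dffe
  0x3dffe = true := by decide +kernel

end Pool.Agent.H110.Refl
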