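import Pool.Agent.H110.Refl.K16

/-! Part of the exhaustive search, see `Pool.Agent.H110.Refl.AlgB`. -/

namespace Pool.Agent.H110.Refl

theorem kA_1_2 : run CH 2 8 6 1
  0x3fffe2ffff1bfff8efffc7bffe3efff1fbff8feff87fbfc3fefe1ffbf0ffef87ffbc3ffee1fffb0fffe87fff83f8001d5372f2ae1b7ed1
  0x20000100000800004000020000100000800004000020000100000800004000020000100000800004000000000000000000003f80023fffc
  0x8000 = true := by decide +kernel

theorem kA_6_2 : run CH 2 8 6 6
  0x3ffde2ffff1bfff8efffc7bffe3efff1fbff8feffc7fbfe3feff1ffbf8ffef87ff9e1ffc01fff38fffac7ffda3ffae154c0af2371bbc61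
  0x20000100000800004000020000100000800004000020000100000800000000020000100000800004000020000000000000003ffae23ffbe
  0x31a2e = true := by decide +kernel

theorem kA_1_5 : run CH 2 8 6 1
  0x3fffe2ffff1bfff8efffc7bffe3efff1fbff8feff87fbfc3fefe1ffbf0ffef87ffbc3ffee1fffb0fffe87fff83f8001d5372f2ae1b7ed1
  0x20000100000800004000020000100000800004000020000100000800004000020000100000800004000000000000000000003f80023fffc
  0x4000 = true := by decide +kernel

theorem kA_1_6 : run CH 2 8 6 1
  0x3fffe2ffff1bfff8efffc7bffe3efff1fbff8feff87fbfc3fefe1ffbf0ffef87ffbc3ffee1fffb0fffe87fff83f8001d5372f2ae1b7ed1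
  0x20000100000800004000020000100000800004000020000100000800004000020000100000800004000000000000000000003f80023fffc
  0x80 = true := by decide +kernel

theorem kB_11_0 : run CHm 3 7 7 11
  0x3f0002fc001bc000ef0407b0003ef101fbff056ffc03bfe01eff007bf803efc01fbe05fef007fb803fec01ffa007fe09ed0187f7bea8ec
  0x2000010000080000400002000010000000000400002000010000080000400002000010000080000400002000000000000000007fe13f7fe
  0x3f7fe = true := by decide +kernel

theorem kA_17_14 : run CH 2 8 6 17
  0x3fffc2ffff1bfff0efff87bffc3efff1fbff0feff87fbfc3fefe1ffbf0ffef87ffbc3ffee1fffb0fffe87fff8110001cab72f1ae041ed1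
  0x100000800004000020000100000800004000020000100000800004000020000100000800004000020000000000000001100021fffe
  0x10 = true := by decide +kernel

end Pool.Agent.H110.Refl
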