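import Pool.Agent.H110.Refl.Base

namespace Pool.Agent.H110.Refl

/-- the points of the set `P`, in the order of a simple polygon -/
def PL : List (ℤ × ℤ) :=
  [(-41516831992, -17948781406), (-8215155297, -3389408468), (-8203669121, -3779160978), (-7740560077, -5600460408), (1731582429, -28800812388), (743615038, -2504045896), (1136057465, -2448124849), (1190741814, -2159855409), (2284840078, -1970966387), (2578832469, -1723210383), (3143319187, -1020050792), (3250957721, 1702309638), (24923001292, 44562163599), (3335952424, 11368716633), (4111286242, 18115590871), (3205305541, 16850639786), (4302121672, 24314443987), (-1806450746, 15491100251)]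

/-- the two Steiner points -/
def SL : List (ℤ × ℤ) := [(3062048194, 22088840386), (10013691623, -2157417598)]

/-- a simple polygon with two reflex vertices through all points of `P` and the two Steiner points -/
def QL : List (ℤ × ℤ) :=
  [(-41516831992, -17948781406), (1731582429, -28800812388), (24923001292, 44562163599), (4302121672, 24314443987), (-1806450746, 15491100251), (-8215155297, -3389408468), (-8203669121, -3779160978), (1190741814, -2159855409), (2284840078, -1970966387), (2578832469, -1723210383), (3143319187, -1020050792), (3250957721, 1702309638), (3335952424, 11368716633), (3205305541, 16850639786), (3062048194, 22088840386), (4111286242, 18115590871), (10013691623, -2157417598), (1136057465, -2448124849), (743615038, -2504045896), (-7740560077, -5600460408)]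

end Pool.Agent.H110.Refl
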