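import Pool.Agent.H110.Refl.Snd2

namespace Pool.Agent.H110.Refl

theorem loop_sound (ih : Nat → Nat → Nat → Bool) (C w a g x : ℕ)
    (hch : child ih C w x (Nat.land a (msk w x)) g (Nat.sub (Nat.land g GM) (kx x)) = false) (f : ℕ) :
    ∀ c, c < 2 ^ f → c.testBit x = true → loop ih C w a g f c = false := by
  induction f with
  | zero =>
    intro c hc hx
    have : c = 0 := by simpa using hc
    rw [this] at hx
    simp at hx
  | succ f ihf =>
    intro c hc hx
    have hc0 : c ≠ 0 := by
      rintro rfl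
      simp at hx
    have e1 : Nat.beq c 0 = false := by
      rw [Bool.eq_false_iff]
      intro h
      exact hc0 (Nat.eq_of_beq_eq_true h)
    show (Bool.rec (Bool.rec false (loop ih C w a g f (Nat.sub c (Nat.shiftLeft 1 (Nat.log2 c))))
        (child ih C w (Nat.log2 c) (Nat.land a (msk w (Nat.log2 c))) g (Nat.sub (Nat.land g GM) (kx (Nat.log2 c)))))
      true (Nat.beq c 0) : Bool) = false
    rw [e1]
    by_cases hxl : x = Nat.log2 c
    · rw [← hxl, hch]
    · have hle : 2 ^ c.log2 ≤ c := Nat.log2_self_le hc0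
      have hlt : c < 2 ^ (c.log2 + 1) := Nat.lt_log2_self
      have hlf : c.log2 < f + 1 := (Nat.log2_lt hc0).2 hc
      have e2 : loop ih C w a g f (Nat.sub c (Nat.shiftLeft 1 (Nat.log2 c))) = false := by
        apply ihf
        · rw [sub_def, shl_def, Nat.one_shiftLeft]
          have h1 : 2 ^ c.log2 ≤ 2 ^ f := Nat.pow_le_pow_right (by norm_num) (by omega)
          rw [pow_succ] at hlt
          omega
        · rw [sub_def, shl_def, Nat.one_shiftLeft]
          have h1 : c = 2 ^ c.log2 + (c - 2 ^ c.log2) := by omega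
          have h2 : x < c.log2 := by
            rcases Nat.lt_or_ge x c.log2 with h3 | h3
            · exact h3
            · exfalso
              have := Nat.testBit_lt_two_pow (x := c) (i := x) (lt_of_lt_of_le hlt (Nat.pow_le_pow_right (by norm_num) (by omega)))
              rw [hx] at this
              exact absurd this (by simp)
          have h3 := Nat.testBit_two_pow_add_gt h2 (c - 2 ^ c.log2)
          rw [← h1, hx] at h3
          exact h3.symm
      rw [e2]
      cases child ih C w (Nat.log2 c) (Nat.land a (msk w (Nat.log2 c))) g (Nat.sub (Nat.land g GM) (kx (Nat.log2 c))) <;> rfl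

theorem child_eq (ih : Nat → Nat → Nat → Bool) (C w x a g g0 : Nat) : child ih C w x a g g0 =
    Bool.rec true (Bool.rec false true (ih x (hsh a) (gnew C w x (hsh a) g0
      (Nat.sub (Nat.add (Nat.land (Nat.shiftRight g 20) 15) (bit g (Nat.add 24 x))) 1))))
       (test (hsh a) g0 (Nat.land g0 524287)) := rfl

/-- number of the turns `i+1, …, k` which are not to the left -/
noncomputable def rr (C : ℕ) (α : ℕ → ℕ) (j : ℕ) : ℕ := if (lft C (α j) (α (j + 1))).testBit (α (j + 2)) = true then 0 else 1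

structure St (C : ℕ) (α : ℕ → ℕ) (N m e i a b L : ℕ) : Prop where
  inv : Inv α N (i + 1) a
  hb : b + e < 16
  hL : L < 2 ^ 19
  left : rr C α i = 0 → L.testBit (α (i + 2)) = true
  b1 : ∑ j ∈ Finset.Ico i m, rr C α j ≤ b
  b2 : ∑ j ∈ Finset.Ico i (N - 1), rr C α j ≤ b + e

theorem lft_lt (C p w : ℕ) : lft C p w < 2 ^ 19 := by
  unfold lft
  rw [land_def, show (524287 : ℕ) = 2 ^ 19 - 1 from rfl, Nat.and_two_pow_sub_one_eq_mod]
  exact Nat.mod_lt _ (by norm_num)

theorem child_sound (ih : Nat → Nat → Nat → Bool) (C : ℕ) (α : ℕ → ℕ) (N m e : ℕ) (h : Tour α N) (i a b L : ℕ)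
    (hS : St C α N m e i a b L) (hm : i < m) (hN : i + 3 < N) (hmN : m < N)
    (H : ∀ a' b' L', St C α N m e (i + 1) a' b' L' → ih (α (i + 2)) a' (G (U α N (i + 2)) b' L') = false) :
    child ih C (α (i + 1)) (α (i + 2)) (Nat.land a (msk (α (i + 1)) (α (i + 2)))) (G (U α N (i + 1)) b L)
      (Nat.sub (Nat.land (G (U α N (i + 1)) b L) GM) (kx (α (i + 2)))) = false := by
  have hb16 : b < 16 := by have := hS.hb; omega
  have hUlt := U_lt h (i + 1)
  have hUlt2 := U_lt h (i + 2)
  have hx : α (i + 2) ∈ U α N (i + 1) := mem_U.2 ⟨i + 2, by omega, by omega, rfl⟩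
  have hI := Inv.step h hS.inv (by omega)
  rw [child_eq, G_clear _ _ _ hUlt hb16 hS.hL, gs_erase _ _ hx, show i + 2 = i + 1 + 1 from rfl,
    U_erase h (i + 1) (by omega)]
  have e1 : Nat.land (gs (U α N (i + 1 + 1))) 524287 = vs (U α N (i + 1 + 1)) := by
    have := G_unv (U α N (i + 1 + 1)) 0 0 hUlt2
    simpa [G] using this
  rw [e1, test_sound h hI (by omega) (by omega), G_budget _ _ _ hUlt hb16, G_bit _ _ _ _ hUlt hb16 hS.hL (h.lt _)]
  set b' := Nat.sub (Nat.add b (L.testBit (α (i + 1 + 1))).toNat) 1 with hb'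
  set a' := hsh (Nat.land a (msk (α (i + 1)) (α (i + 1 + 1)))) with ha'
  have hrr : rr C α i ≤ 1 := by unfold rr; split <;> omega
  have hsum1 : ∑ j ∈ Finset.Ico i m, rr C α j = rr C α i + ∑ j ∈ Finset.Ico (i + 1) m, rr C α j :=
    Finset.sum_eq_sum_Ico_succ_bot hm _
  have hsum2 : ∑ j ∈ Finset.Ico i (N - 1), rr C α j = rr C α i + ∑ j ∈ Finset.Ico (i + 1) (N - 1), rr C α j :=
    Finset.sum_eq_sum_Ico_succ_bot (by omega) _
  have hS1 := hS.b1
  have hS2 := hS.b2
  rw [hsum1] at hS1
  rw [hsum2] at hS2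
  have hbb : b' + rr C α i ≥ b ∧ b' ≤ b := by
    rw [hb', sub_def, add_def]
    rcases Nat.eq_zero_or_pos (rr C α i) with h0 | h0
    · have := hS.left h0
      rw [show i + 2 = i + 1 + 1 from rfl] at this
      rw [this, h0]
      simp
    · have : (L.testBit (α (i + 1 + 1))).toNat ≤ 1 := Bool.toNat_le _
      omega
  have key := H a' b' (Nat.land (Nat.land (Nat.shiftRight a' (Nat.add 64 (Nat.mul 21 (α (i + 1 + 1)))))
    (lft C (α (i + 1)) (α (i + 1 + 1)))) (gs (U α N (i + 1 + 1)))) ?_
  · have e2 : gnew C (α (i + 1)) (α (i + 1 + 1)) a' (gs (U α N (i + 1 + 1))) b' = G (U α N (i + 1 + 1)) b'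
      (Nat.land (Nat.land (Nat.shiftRight a' (Nat.add 64 (Nat.mul 21 (α (i + 1 + 1)))))
      (lft C (α (i + 1)) (α (i + 1 + 1)))) (gs (U α N (i + 1 + 1)))) := by
      unfold gnew G
      rw [add_def, add_def, shl_def, shl_def, Nat.shiftLeft_eq, Nat.shiftLeft_eq]
    rw [e2]
    rw [show i + 2 = i + 1 + 1 from rfl] at key
    rw [key]
  · refine ⟨hI, ?_, ?_, ?_, ?_, ?_⟩
    · have := hS.hb
      omega
    · rw [land_def, land_def]
      refine lt_of_le_of_lt Nat.and_le_left (lt_of_le_of_lt Nat.and_le_right (lft_lt _ _ _))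
    · intro h0
      rw [land_def, land_def, shr_def, add_def, mul_def, Nat.testBit_and, Nat.testBit_and, Nat.testBit_shiftRight]
      have e1 := (hI.ed (i + 1 + 1) (le_refl _) (by omega)).1
      rw [e1]
      have e2 : (lft C (α (i + 1)) (α (i + 1 + 1))).testBit (α (i + 1 + 2)) = true := by
        unfold rr at h0
        split at h0
        · assumption
        · exact absurd h0 (by omega)
      rw [show i + 1 + 1 + 1 = i + 1 + 2 from rfl, e2]
      have e3 : (gs (U α N (i + 1 + 1))).testBit (α (i + 1 + 2)) = true := by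
        have h5 := (vs_testBit (U α N (i + 1 + 1)) (α (i + 1 + 2))).2 (mem_U.2 ⟨i + 1 + 2, by omega, by omega, rfl⟩)
        rw [← G_unv (U α N (i + 1 + 1)) 0 0 hUlt2, land_def, Nat.testBit_and, Bool.and_eq_true] at h5
        simpa [G] using h5.1
      rw [e3]; rfl
    · omega
    · omega

theorem nodeB_eq (C : Nat) (ih : Nat → Nat → Nat → Bool) (w a g : Nat) : nodeB C ih w a g =
    loop ih C w a g 19 (Nat.rec (Nat.land (Nat.shiftRight g 24) 524287)
      (fun _ _ => Nat.land (Nat.shiftRight a (Nat.add 64 (Nat.mul 21 w))) (Nat.land g 524287))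
      (Nat.land (Nat.shiftRight g 20) 15)) := rfl

theorem nodeB_zero (C : Nat) (ih : Nat → Nat → Nat → Bool) (w a g L : Nat) (h : Nat.land (Nat.shiftRight g 20) 15 = 0)
    (hL : Nat.land (Nat.shiftRight g 24) 524287 = L) : nodeB C ih w a g = loop ih C w a g 19 L := by
  rw [nodeB_eq, h, hL]
  rfl

theorem nodeB_succ (C : Nat) (ih : Nat → Nat → Nat → Bool) (w a g b v : Nat)
    (h : Nat.land (Nat.shiftRight g 20) 15 = b + 1) (hv : Nat.land g 524287 = v) : nodeB C ih w a g =
    loop ih C w a g 19 (Nat.land (Nat.shiftRight a (Nat.add 64 (Nat.mul 21 w))) v) := by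
  rw [nodeB_eq, h, hv]

theorem nodeB_sound (ih : Nat → Nat → Nat → Bool) (C : ℕ) (α : ℕ → ℕ) (N m e : ℕ) (h : Tour α N) (i a b L : ℕ)
    (hS : St C α N m e i a b L) (hm : i < m) (hN : i + 3 < N) (hmN : m < N)
    (H : ∀ a' b' L', St C α N m e (i + 1) a' b' L' → ih (α (i + 2)) a' (G (U α N (i + 2)) b' L') = false) :
    nodeB C ih (α (i + 1)) a (G (U α N (i + 1)) b L) = false := by
  have hb16 : b < 16 := by have := hS.hb; omega
  have hUlt := U_lt h (i + 1)
  have e1 := G_budget _ b L hUlt hb16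
  have e2 := G_left _ _ _ hUlt hb16 hS.hL
  have e3 := G_unv _ b L hUlt
  have hch := child_sound ih C α N m e h i a b L hS hm hN hmN H
  rcases b with _ | b
  · rw [nodeB_zero C ih _ a _ L e1 e2]
    have hx : L.testBit (α (i + 2)) = true := by
      apply hS.left
      have h1 := hS.b1
      rw [Finset.sum_eq_sum_Ico_succ_bot hm] at h1
      omega
    exact loop_sound ih C _ a _ _ hch 19 L hS.hL hx
  · rw [nodeB_succ C ih _ a _ b _ e1 e3]
    have hc : Nat.land (Nat.shiftRight a (Nat.add 64 (Nat.mul 21 (α (i + 1))))) (vs (U α N (i + 1))) < 2 ^ 19 := by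
      rw [land_def]
      exact lt_of_le_of_lt Nat.and_le_right (vs_lt _ hUlt)
    have hx : (Nat.land (Nat.shiftRight a (Nat.add 64 (Nat.mul 21 (α (i + 1))))) (vs (U α N (i + 1)))).testBit (α (i + 2))
        = true := by
      rw [land_def, shr_def, add_def, mul_def, Nat.testBit_and, Nat.testBit_shiftRight, Bool.and_eq_true, vs_testBit]
      exact ⟨(hS.inv.ed (i + 1) (le_refl _) (by omega)).1, mem_U.2 ⟨i + 2, by omega, by omega, rfl⟩⟩
    exact loop_sound ih C _ a _ _ hch 19 _ hc hx

theorem node_sound (bs : Nat → Nat → Nat → Bool) (C : ℕ) (α : ℕ → ℕ) (N m e : ℕ) (h : Tour α N) (hmN : m + 2 < N)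
    (H : ∀ a' b' L', St C α N m e m a' b' L' → bs (α (m + 1)) a' (G (U α N (m + 1)) b' L') = false) (f : ℕ) :
    ∀ i a b L, i + f = m → St C α N m e i a b L → node C bs f (α (i + 1)) a (G (U α N (i + 1)) b L) = false := by
  induction f with
  | zero =>
    intro i a b L hi hS
    rw [Nat.add_zero] at hi
    subst hi
    exact H a b L hS
  | succ f ih =>
    intro i a b L hi hS
    show nodeB C (node C bs f) (α (i + 1)) a (G (U α N (i + 1)) b L) = false
    apply nodeB_sound _ C α N m e h i a b L hS (by omega) (by omega) (by omega)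
    intro a' b' L' hS'
    exact ih (i + 1) a' b' L' (by omega) hS'

end Pool.Agent.H110.Refl
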